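import Pool.Agent.Q138.SA.Domain

/-!
# The matrices `A ⊕ ⋯ ⊕ A ⊕ z ⊕ ⋯ ⊕ z`
-/

set_option autoImplicit false

open scoped MatrixGroups UpperHalfPlane Matrix Topology Kronecker
open UpperHalfPlane

namespace Pool.Agent.Q138.SA

open Pool.Agent.Y473.SA

/-- The index type. -/
abbrev Idx (m n : ℕ) : Type := (Fin 2 × Fin m) ⊕ Fin n

theorem card_idx (m n : ℕ) : Fintype.card (Idx m n) = Fintype.card (Fin (2 * m + n)) := by
  simp

/-- An enumeration of the index type. -/
noncomputable def enum (m n : ℕ) : Idx m n ≃ Fin (2 * m + n) :=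
  Fintype.equivOfCardEq (card_idx m n)

variable {m n : ℕ}

/-- The block matrix `A ⊕ ⋯ ⊕ A ⊕ z ⊕ ⋯ ⊕ z` with `m` blocks `A` and `n` blocks `z`. -/
noncomputable def BM (m n : ℕ) (A : Matrix (Fin 2) (Fin 2) ℂ) (z : ℂ) :
    Matrix (Fin (2 * m + n)) (Fin (2 * m + n)) ℂ :=
  Matrix.reindex (enum m n) (enum m n)
    (Matrix.fromBlocks (A ⊗ₖ (1 : Matrix (Fin m) (Fin m) ℂ)) 0 0 (z • (1 : Matrix (Fin n) (Fin n) ℂ)))

theorem BM_mul (A A' : Matrix (Fin 2) (Fin 2) ℂ) (z z' : ℂ) :
    BM m n A z * BM m n A' z' = BM m n (A * A') (z * z') := by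
  rw [BM, BM, BM, Matrix.reindex_apply, Matrix.reindex_apply, Matrix.reindex_apply,
    Matrix.submatrix_mul_equiv, Matrix.fromBlocks_multiply]
  congr 2
  · simp only [Matrix.mul_zero, add_zero]
    rw [← Matrix.mul_kronecker_mul, Matrix.one_mul]
  · simp
  · simp
  · simp [smul_smul, mul_comm]

theorem BM_one : BM m n 1 1 = 1 := by
  rw [BM, Matrix.one_kronecker_one, one_smul, Matrix.fromBlocks_one, Matrix.reindex_apply,
    Matrix.submatrix_one_equiv]

theorem BM_add (A A' : Matrix (Fin 2) (Fin 2) ℂ) (z z' : ℂ) :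
    BM m n A z + BM m n A' z' = BM m n (A + A') (z + z') := by
  rw [BM, BM, BM, Matrix.reindex_apply, Matrix.reindex_apply, Matrix.reindex_apply,
    Matrix.add_kronecker, add_smul]
  ext i j
  simp only [Matrix.add_apply, Matrix.submatrix_apply]
  rcases (enum m n).symm i with i' | i' <;> rcases (enum m n).symm j with j' | j' <;> simp

theorem BM_smul (x : ℂ) (A : Matrix (Fin 2) (Fin 2) ℂ) (z : ℂ) :
    x • BM m n A z = BM m n (x • A) (x * z) := by
  rw [BM, BM, Matrix.reindex_apply, Matrix.reindex_apply, Matrix.smul_kronecker]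
  ext i j
  simp only [Matrix.smul_apply, Matrix.submatrix_apply]
  rcases (enum m n).symm i with i' | i' <;> rcases (enum m n).symm j with j' | j' <;>
    simp [mul_assoc]

theorem BM_det (A : Matrix (Fin 2) (Fin 2) ℂ) (z : ℂ) : (BM m n A z).det = A.det ^ m * z ^ n := by
  rw [BM, Matrix.det_reindex_self, Matrix.det_fromBlocks_zero₂₁, Matrix.det_kronecker]
  simp

theorem BM_conjTranspose (A : Matrix (Fin 2) (Fin 2) ℂ) (z : ℂ) :
    (BM m n A z)ᴴ = BM m n Aᴴ (star z) := by
  rw [BM, BM, Matrix.reindex_apply, Matrix.reindex_apply, Matrix.conjTranspose_submatrix,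
    Matrix.fromBlocks_conjTranspose, Matrix.conjTranspose_kronecker]
  simp

theorem continuous_BM {X : Type*} [TopologicalSpace X] {A : X → Matrix (Fin 2) (Fin 2) ℂ} {z : X → ℂ}
    (hA : Continuous A) (hz : Continuous z) : Continuous fun x => BM m n (A x) (z x) := by
  unfold BM
  apply Continuous.matrix_reindex
  apply Continuous.matrix_fromBlocks
  · apply continuous_matrix
    intro i j
    simp only [Matrix.kroneckerMap_apply]
    exact (hA.matrix_elem _ _).mul continuous_const
  · exact continuous_const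
  · exact continuous_const
  · exact hz.smul continuous_const

/-- The entries of the diagonal matrix `BM (diag(x, y)) z`. -/
def wt (x y z : ℂ) : Idx m n → ℂ
  | Sum.inl (i, _) => if i = 0 then x else y
  | Sum.inr _ => z

theorem BM_diag (x y z : ℂ) :
    BM m n !![x, 0; 0, y] z = Matrix.diagonal fun i => wt x y z ((enum m n).symm i) := by
  ext i j
  rw [BM, Matrix.reindex_apply, Matrix.submatrix_apply]
  rcases eq_or_ne i j with rfl | hij
  · rw [Matrix.diagonal_apply_eq]
    rcases (enum m n).symm i with ⟨i', a⟩ | i'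
    · fin_cases i' <;> simp [wt, Matrix.kroneckerMap_apply]
    · simp [wt]
  · rw [Matrix.diagonal_apply_ne _ hij]
    have hij' : (enum m n).symm i ≠ (enum m n).symm j := fun h => hij ((enum m n).symm.injective h)
    rcases hi : (enum m n).symm i with ⟨i', a⟩ | i' <;> rcases hj : (enum m n).symm j with ⟨j', b⟩ | j'
    · rw [hi, hj] at hij'
      simp only [Matrix.fromBlocks_apply₁₁, Matrix.kroneckerMap_apply]
      rcases eq_or_ne a b with rfl | hab
      · have : i' ≠ j' := fun h => hij' (by rw [h])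
        fin_cases i' <;> fin_cases j' <;> simp_all
      · rw [Matrix.one_apply_ne hab, mul_zero]
    · simp
    · simp
    · rw [hi, hj] at hij'
      have : i' ≠ j' := fun h => hij' (by rw [h])
      simp [Matrix.one_apply_ne this]

/-- The complexification of a real matrix. -/
noncomputable def cx (g : SL(2, ℝ)) : Matrix (Fin 2) (Fin 2) ℂ := (g.1).map (fun x : ℝ => (x : ℂ))

theorem cx_mul (g h : SL(2, ℝ)) : cx (g * h) = cx g * cx h := by
  rw [cx, cx, cx, Matrix.SpecialLinearGroup.coe_mul]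
  ext i j
  simp [Matrix.mul_apply]

theorem cx_one : cx 1 = 1 := by
  rw [cx, Matrix.SpecialLinearGroup.coe_one]
  ext i j
  rcases eq_or_ne i j with rfl | h
  · simp
  · simp [h]

theorem cx_det (g : SL(2, ℝ)) : (cx g).det = 1 := by
  have h : (cx g) = (Complex.ofRealHom).mapMatrix g.1 := rfl
  rw [h, ← RingHom.map_det, g.2, map_one]

/-- The representation `A ↦ A ⊕ ⋯ ⊕ A ⊕ 1 ⊕ ⋯ ⊕ 1` of `SL(2, ℝ)`. -/
noncomputable def RM (m n : ℕ) : SL(2, ℝ) →* SL(2 * m + n, ℂ) where
  toFun g := ⟨BM m n (cx g) 1, by rw [BM_det, cx_det, one_pow, one_pow, one_mul]⟩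
  map_one' := by
    apply Subtype.ext
    change BM m n (cx 1) 1 = 1
    rw [cx_one, BM_one]
  map_mul' g h := by
    apply Subtype.ext
    change BM m n (cx (g * h)) 1 = BM m n (cx g) 1 * BM m n (cx h) 1
    rw [BM_mul, cx_mul, one_mul]

theorem RM_coe (g : SL(2, ℝ)) : (RM m n g).1 = BM m n (cx g) 1 := rfl

/-- The representation of `Γ`. -/
noncomputable def exRep (Γ : Subgroup SL(2, ℝ)) (m n : ℕ) : Rep Γ (2 * m + n) :=
  ⟨fun g => RM m n g, fun x y => map_mul (RM m n) (x : SL(2, ℝ)) (y : SL(2, ℝ))⟩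

theorem exRep_apply {Γ : Subgroup SL(2, ℝ)} (g : Γ) : (exRep Γ m n).1 g = RM m n g := rfl

end Pool.Agent.Q138.SA
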