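import Pool.Agent.Q138.SA.BMat

/-!
# Complete reducibility of the example
-/

set_option autoImplicit false

open scoped MatrixGroups UpperHalfPlane Matrix Topology Kronecker
open UpperHalfPlane

namespace Pool.Agent.Q138.SA

open Pool.Agent.Y473.SA

variable {m n d : ℕ}

/-- A space invariant under a set of matrices closed under the adjoint has an invariant
complement. -/
theorem exists_invariant_compl (S : Set (Matrix (Fin d) (Fin d) ℂ)) (hS : ∀ A ∈ S, Aᴴ ∈ S)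
    (W : Submodule ℂ (Fin d → ℂ)) (hW : ∀ A ∈ S, ∀ w ∈ W, A *ᵥ w ∈ W) :
    ∃ W' : Submodule ℂ (Fin d → ℂ), (∀ A ∈ S, ∀ w ∈ W', A *ᵥ w ∈ W') ∧ IsCompl W W' := by
  set e : EuclideanSpace ℂ (Fin d) ≃ₗ[ℂ] (Fin d → ℂ) := WithLp.linearEquiv 2 ℂ (Fin d → ℂ) with he
  set U : Submodule ℂ (EuclideanSpace ℂ (Fin d)) := W.map e.symm.toLinearMap with hU
  have hin : ∀ x y : EuclideanSpace ℂ (Fin d), inner ℂ x y = star (e x) ⬝ᵥ (e y) := by
    intro x y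
    rw [EuclideanSpace.inner_eq_star_dotProduct, dotProduct_comm]
    rfl
  refine ⟨Uᗮ.map e.toLinearMap, ?_, ?_⟩
  · rintro A hA _ ⟨u, hu, rfl⟩
    refine ⟨e.symm (A *ᵥ e u), ?_, by simp⟩
    change e.symm (A *ᵥ e u) ∈ Uᗮ
    rw [Submodule.mem_orthogonal]
    rintro _ ⟨w, hw, rfl⟩
    have h1 : e.symm (Aᴴ *ᵥ w) ∈ U := ⟨Aᴴ *ᵥ w, hW _ (hS A hA) w hw, rfl⟩
    have h2 := (Submodule.mem_orthogonal U u).1 hu _ h1
    rw [hin] at h2 ⊢
    simp only [LinearEquiv.apply_symm_apply, LinearEquiv.coe_coe] at h2 ⊢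
    rw [Matrix.star_mulVec, Matrix.conjTranspose_conjTranspose] at h2
    rw [Matrix.dotProduct_mulVec]
    exact h2
  · have h1 : IsCompl U Uᗮ := Submodule.isCompl_orthogonal _
    have h2 := (Submodule.orderIsoMapComap e).isCompl h1
    have h3 : IsCompl (U.map e.toLinearMap) (Uᗮ.map e.toLinearMap) := h2
    have e1 : U.map e.toLinearMap = W := by
      rw [hU, ← Submodule.map_comp]
      have : e.toLinearMap ∘ₗ e.symm.toLinearMap = LinearMap.id := by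
        ext v; simp
      rw [this, Submodule.map_id]
    rwa [e1] at h3

/-- A space invariant under a diagonal block matrix and a full block matrix is invariant under
all block matrices. -/
theorem invariant_all {lam : ℂ} (h0 : lam ≠ 0) (h1 : lam ≠ 1) (h2 : lam ≠ lam⁻¹)
    {b : Matrix (Fin 2) (Fin 2) ℂ} (hb1 : b 0 1 ≠ 0) (hb2 : b 1 0 ≠ 0)
    (W : Submodule ℂ (Fin (2 * m + n) → ℂ)) (ha : ∀ w ∈ W, BM m n !![lam, 0; 0, lam⁻¹] 1 *ᵥ w ∈ W)
    (hb : ∀ w ∈ W, BM m n b 1 *ᵥ w ∈ W) (A : Matrix (Fin 2) (Fin 2) ℂ) (z : ℂ) :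
    ∀ w ∈ W, BM m n A z *ᵥ w ∈ W := by
  -- closure properties
  have hmul : ∀ {A A' : Matrix (Fin 2) (Fin 2) ℂ} {z z' : ℂ}, (∀ w ∈ W, BM m n A z *ᵥ w ∈ W) →
      (∀ w ∈ W, BM m n A' z' *ᵥ w ∈ W) → ∀ w ∈ W, BM m n (A * A') (z * z') *ᵥ w ∈ W := by
    intro A A' z z' h h' w hw
    rw [← BM_mul, ← Matrix.mulVec_mulVec]
    exact h _ (h' w hw)
  have hadd : ∀ {A A' : Matrix (Fin 2) (Fin 2) ℂ} {z z' : ℂ}, (∀ w ∈ W, BM m n A z *ᵥ w ∈ W) →
      (∀ w ∈ W, BM m n A' z' *ᵥ w ∈ W) → ∀ w ∈ W, BM m n (A + A') (z + z') *ᵥ w ∈ W := by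
    intro A A' z z' h h' w hw
    rw [← BM_add, Matrix.add_mulVec]
    exact W.add_mem (h w hw) (h' w hw)
  have hsmul : ∀ {A : Matrix (Fin 2) (Fin 2) ℂ} {z : ℂ} (x : ℂ), (∀ w ∈ W, BM m n A z *ᵥ w ∈ W) →
      ∀ w ∈ W, BM m n (x • A) (x * z) *ᵥ w ∈ W := by
    intro A z x h w hw
    rw [← BM_smul, Matrix.smul_mulVec]
    exact W.smul_mem _ (h w hw)
  have hone : ∀ w ∈ W, BM m n 1 1 *ᵥ w ∈ W := by
    intro w hw
    rw [BM_one, Matrix.one_mulVec]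
    exact hw
  have hl1 : lam⁻¹ ≠ 1 := fun h => h1 (inv_eq_one.1 h)
  -- the projections
  have hE : ∀ x : ℂ, ∀ w ∈ W, BM m n (!![(lam - 1) * (lam - x), 0; 0, (lam⁻¹ - 1) * (lam⁻¹ - x)]) 0 *ᵥ w ∈ W := by
    intro x
    have h3 := hmul (hadd ha (hsmul (-1) hone)) (hadd ha (hsmul (-x) hone))
    have e1 : (!![lam, 0; 0, lam⁻¹] + (-1 : ℂ) • (1 : Matrix (Fin 2) (Fin 2) ℂ)) *
        (!![lam, 0; 0, lam⁻¹] + (-x) • (1 : Matrix (Fin 2) (Fin 2) ℂ)) =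
        !![(lam - 1) * (lam - x), 0; 0, (lam⁻¹ - 1) * (lam⁻¹ - x)] := by
      ext i j
      fin_cases i <;> fin_cases j <;> simp [Matrix.mul_apply, Fin.sum_univ_two] <;> ring
    have e2 : ((1 : ℂ) + -1 * 1) * (1 + -x * 1) = 0 := by ring
    rw [e1, e2] at h3
    exact h3
  have hE1 : ∀ w ∈ W, BM m n !![1, 0; 0, 0] 0 *ᵥ w ∈ W := by
    have h3 := hsmul (((lam - 1) * (lam - lam⁻¹))⁻¹) (hE lam⁻¹)
    have hne : (lam - 1) * (lam - lam⁻¹) ≠ 0 := mul_ne_zero (sub_ne_zero.2 h1) (sub_ne_zero.2 h2)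
    have e1 : (((lam - 1) * (lam - lam⁻¹))⁻¹ • !![(lam - 1) * (lam - lam⁻¹), 0; 0,
        (lam⁻¹ - 1) * (lam⁻¹ - lam⁻¹)] : Matrix (Fin 2) (Fin 2) ℂ) = !![1, 0; 0, 0] := by
      ext i j
      fin_cases i <;> fin_cases j
      · exact inv_mul_cancel₀ hne
      · simp
      · simp
      · simp
    rw [e1, mul_zero] at h3
    exact h3
  have hE2 : ∀ w ∈ W, BM m n !![0, 0; 0, 1] 0 *ᵥ w ∈ W := by
    have h3 := hsmul (((lam⁻¹ - 1) * (lam⁻¹ - lam))⁻¹) (hE lam)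
    have hne : (lam⁻¹ - 1) * (lam⁻¹ - lam) ≠ 0 :=
      mul_ne_zero (sub_ne_zero.2 hl1) (sub_ne_zero.2 h2.symm)
    have e1 : (((lam⁻¹ - 1) * (lam⁻¹ - lam))⁻¹ • !![(lam - 1) * (lam - lam), 0; 0,
        (lam⁻¹ - 1) * (lam⁻¹ - lam)] : Matrix (Fin 2) (Fin 2) ℂ) = !![0, 0; 0, 1] := by
      ext i j
      fin_cases i <;> fin_cases j
      · simp
      · simp
      · simp
      · exact inv_mul_cancel₀ hne
    rw [e1, mul_zero] at h3
    exact h3
  have hE3 : ∀ w ∈ W, BM m n 0 1 *ᵥ w ∈ W := by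
    have h3 := hadd hone (hadd (hsmul (-1) hE1) (hsmul (-1) hE2))
    have e1 : (1 : Matrix (Fin 2) (Fin 2) ℂ) + ((-1 : ℂ) • !![1, 0; 0, 0] + (-1 : ℂ) • !![0, 0; 0, 1]) = 0 := by
      ext i j
      fin_cases i <;> fin_cases j <;> simp
    have e2 : (1 : ℂ) + (-1 * 0 + -1 * 0) = 1 := by ring
    rw [e1, e2] at h3
    exact h3
  have hF12 : ∀ w ∈ W, BM m n !![0, 1; 0, 0] 0 *ᵥ w ∈ W := by
    have h3 := hsmul (b 0 1)⁻¹ (hmul hE1 (hmul hb hE2))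
    have e1 : (b 0 1)⁻¹ • ((!![1, 0; 0, 0] : Matrix (Fin 2) (Fin 2) ℂ) * (b * !![0, 0; 0, 1])) = !![0, 1; 0, 0] := by
      ext i j
      rw [Matrix.smul_apply, Matrix.mul_apply, Fin.sum_univ_two, Matrix.mul_apply, Matrix.mul_apply,
        Fin.sum_univ_two, Fin.sum_univ_two]
      fin_cases i <;> fin_cases j <;> simp [hb1]
    have e2 : (b 0 1)⁻¹ * (0 * (1 * 0)) = 0 := by ring
    rw [e1, e2] at h3
    exact h3
  have hF21 : ∀ w ∈ W, BM m n !![0, 0; 1, 0] 0 *ᵥ w ∈ W := by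
    have h3 := hsmul (b 1 0)⁻¹ (hmul hE2 (hmul hb hE1))
    have e1 : (b 1 0)⁻¹ • ((!![0, 0; 0, 1] : Matrix (Fin 2) (Fin 2) ℂ) * (b * !![1, 0; 0, 0])) = !![0, 0; 1, 0] := by
      ext i j
      rw [Matrix.smul_apply, Matrix.mul_apply, Fin.sum_univ_two, Matrix.mul_apply, Matrix.mul_apply,
        Fin.sum_univ_two, Fin.sum_univ_two]
      fin_cases i <;> fin_cases j <;> simp [hb2]
    have e2 : (b 1 0)⁻¹ * (0 * (1 * 0)) = 0 := by ring
    rw [e1, e2] at h3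
    exact h3
  have h3 := hadd (hsmul z hE3) (hadd (hadd (hsmul (A 0 0) hE1) (hsmul (A 0 1) hF12))
    (hadd (hsmul (A 1 0) hF21) (hsmul (A 1 1) hE2)))
  have e1 : z • (0 : Matrix (Fin 2) (Fin 2) ℂ) + ((A 0 0 • !![1, 0; 0, 0] + A 0 1 • !![0, 1; 0, 0]) +
      (A 1 0 • !![0, 0; 1, 0] + A 1 1 • !![0, 0; 0, 1])) = A := by
    ext i j
    fin_cases i <;> fin_cases j <;> simp
  have e2 : z * 1 + ((A 0 0 * 0 + A 0 1 * 0) + (A 1 0 * 0 + A 1 1 * 0)) = z := by ring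
  rw [e1, e2] at h3
  exact h3

/-- The example is completely reducible. -/
theorem exRep_cr {Γ : Subgroup SL(2, ℝ)} (hΓ : IsClosedSurface Γ) (m n : ℕ) :
    IsCompletelyReducible (exRep Γ m n) := by
  obtain ⟨ε, hε, hgap, hdiag⟩ := hΓ.trace_gap
  obtain ⟨a, b, hab⟩ := hΓ.exists_not_comm
  have ha1 : a ≠ 1 := by
    rintro rfl
    apply hab
    simp
  obtain ⟨p, lam, h1, -, -, h00, h11, h01, h10⟩ := hdiag a ha1
  have hsinh : 0 < 2 * Real.sinh (ε / 2) := by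
    have : 0 < Real.sinh (ε / 2) := Real.sinh_pos_iff.2 (by linarith)
    linarith
  have hlam0 : lam ≠ 0 := by
    rintro rfl
    rw [inv_zero, sub_zero, abs_zero] at h1
    linarith
  have hlam2 : lam ≠ lam⁻¹ := by
    intro h
    rw [← h, sub_self, abs_zero] at h1
    linarith
  have hlam1 : lam ≠ 1 := by
    rintro rfl
    simp at hlam2
  set B : SL(2, ℝ) := p⁻¹ * b * p with hB
  have hBprod : B 0 1 * B 1 0 ≠ 0 := by
    intro h
    have h3 := tr_comm (A := p⁻¹ * a * p) (B := B) hlam0 h00 h11 h01 h10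
    rw [h, mul_zero, sub_zero] at h3
    have e : p⁻¹ * (a : SL(2, ℝ)) * p * B * (p⁻¹ * (a : SL(2, ℝ)) * p)⁻¹ * B⁻¹ =
        p⁻¹ * ((a * b * a⁻¹ * b⁻¹ : Γ) : SL(2, ℝ)) * p := by
      rw [hB, Subgroup.coe_mul, Subgroup.coe_mul, Subgroup.coe_mul, Subgroup.coe_inv,
        Subgroup.coe_inv]
      group
    rw [e, tr_conj] at h3
    have h4 := hgap _ hab
    rw [h3, abs_of_pos (by norm_num : (0 : ℝ) < 2)] at h4
    have : 1 < Real.cosh (ε / 2) := Real.one_lt_cosh.2 (by linarith)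
    linarith
  -- conjugate by `p`
  have key : IsCompletelyReducible (conjR (RM m n p⁻¹) (exRep Γ m n)) := by
    intro W hW
    have hval : ∀ g : Γ, ((conjR (RM m n p⁻¹) (exRep Γ m n)).1 g) = RM m n (p⁻¹ * g * p) := by
      intro g
      change RM m n p⁻¹ * RM m n g * (RM m n p⁻¹)⁻¹ = _
      rw [map_mul, map_mul, map_inv, inv_inv]
    have hall := invariant_all (m := m) (n := n) (lam := (lam : ℂ)) (by exact_mod_cast hlam0)
      (by exact_mod_cast hlam1) (by exact_mod_cast hlam2) (b := cx B)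
      (by
        change ((B 0 1 : ℝ) : ℂ) ≠ 0
        exact_mod_cast (left_ne_zero_of_mul hBprod))
      (by
        change ((B 1 0 : ℝ) : ℂ) ≠ 0
        exact_mod_cast (right_ne_zero_of_mul hBprod)) W
      (by
        intro w hw
        have h3 := hW a w hw
        rw [hval, RM_coe] at h3
        have e : cx (p⁻¹ * a * p) = !![(lam : ℂ), 0; 0, (lam : ℂ)⁻¹] := by
          ext i j
          fin_cases i <;> fin_cases j
          · change (((p⁻¹ * a * p : SL(2, ℝ)) 0 0 : ℝ) : ℂ) = _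
            rw [h00]; simp
          · change (((p⁻¹ * a * p : SL(2, ℝ)) 0 1 : ℝ) : ℂ) = _
            rw [h01]; simp
          · change (((p⁻¹ * a * p : SL(2, ℝ)) 1 0 : ℝ) : ℂ) = _
            rw [h10]; simp
          · change (((p⁻¹ * a * p : SL(2, ℝ)) 1 1 : ℝ) : ℂ) = _
            rw [h11]; simp
        rwa [e] at h3)
      (by
        intro w hw
        have h3 := hW b w hw
        rwa [hval, RM_coe] at h3)
    obtain ⟨W', h3, h4⟩ := exists_invariant_compl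
      {M | ∃ (A : Matrix (Fin 2) (Fin 2) ℂ) (z : ℂ), M = BM m n A z}
      (by
        rintro _ ⟨A, z, rfl⟩
        exact ⟨_, _, BM_conjTranspose A z⟩) W (by
        rintro _ ⟨A, z, rfl⟩
        exact hall A z)
    refine ⟨W', fun g w hw => ?_, h4⟩
    rw [hval, RM_coe]
    exact h3 _ ⟨_, _, rfl⟩ w hw
  have := conjR_cr (RM m n p⁻¹)⁻¹ key
  have e : conjR (RM m n p⁻¹)⁻¹ (conjR (RM m n p⁻¹) (exRep Γ m n)) = exRep Γ m n := by
    apply Subtype.ext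
    funext g
    change (RM m n p⁻¹)⁻¹ * (RM m n p⁻¹ * (exRep Γ m n).1 g * (RM m n p⁻¹)⁻¹) * ((RM m n p⁻¹)⁻¹)⁻¹ = _
    simp [mul_assoc]
  rwa [e] at this

end Pool.Agent.Q138.SA
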