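import Mathlib

/-!
# Cones: an abstract perturbation argument
-/

set_option autoImplicit false

namespace Pool.Agent.Q138.SA

variable {V : Type*}

/-- One step of a perturbed dominated cocycle. `a`, `b` (resp. `a'`, `b'`) are the sizes of the
unstable and of the stable components at the source (resp. target), `A` is the unperturbed and
`S` is the perturbed map. -/
structure Step (m : ℝ) (a b a' b' : V → ℝ) (S : V → V) : Prop where
  ha : ∀ v, 0 ≤ a v
  hb : ∀ v, 0 ≤ b v
  h : ∃ A : V → V,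
    (∀ v w, b' (A w) * a v ≤ 1 / 8 * (a' (A v) * b w)) ∧
    (∀ v, m * a v ≤ a' (A v)) ∧
    (∀ v, |a' (S v) - a' (A v)| ≤ m / 8 * max (a v) (b v)) ∧
    (∀ v, |b' (S v) - b' (A v)| ≤ m / 8 * max (a v) (b v))

variable {m : ℝ} {a b a' b' : V → ℝ} {S : V → V}

theorem Step.c1 (hm : 0 < m) (st : Step m a b a' b' S) {v : V} (h : b v ≤ a v) (h0 : 0 < a v) :
    b' (S v) ≤ 1 / 2 * a' (S v) ∧ 0 < a' (S v) := by
  obtain ⟨A, dom, low, pa, pb⟩ := st.h
  have h1 := dom v v
  have h2 := low v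
  have h3 := pa v
  have h4 := pb v
  rw [max_eq_left h] at h3 h4
  have h5 : 0 < a' (A v) := lt_of_lt_of_le (by positivity) h2
  have h6 : b' (A v) ≤ 1 / 8 * a' (A v) := by
    have : b' (A v) * a v ≤ (1 / 8 * a' (A v)) * a v := by nlinarith
    exact le_of_mul_le_mul_right this h0
  rw [abs_le] at h3 h4
  constructor <;> linarith [h3.1, h3.2, h4.1, h4.2]

theorem Step.c2 (hm : 0 < m) (st : Step m a b a' b' S) {w : V} (h : a' (S w) ≤ b' (S w)) :
    a w ≤ b w := by
  by_contra hcon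
  push Not at hcon
  obtain ⟨h1, h2⟩ := st.c1 hm hcon.le (lt_of_le_of_lt (st.hb w) hcon)
  linarith

theorem Step.c3 (hm : 0 < m) (st : Step m a b a' b' S) {v w : V} (h : b v ≤ a v) (h0 : 0 < a v)
    (hw : a w ≤ b w) : b' (S w) * a v ≤ 1 / 2 * (a' (S v) * b w) := by
  obtain ⟨A, dom, low, pa, pb⟩ := st.h
  have h1 := dom v w
  have h2 := low v
  have h3 := pa v
  have h4 := pb w
  rw [max_eq_left h] at h3
  rw [max_eq_right hw] at h4
  have h5 : 0 < a' (A v) := lt_of_lt_of_le (by positivity) h2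
  rw [abs_le] at h3 h4
  have hbw := st.hb w
  have e1 : b' (S w) * a v ≤ (b' (A w) + m / 8 * b w) * a v :=
    mul_le_mul_of_nonneg_right (by linarith [h4.2]) h0.le
  have e2 : m * a v * b w ≤ a' (A v) * b w := mul_le_mul_of_nonneg_right h2 hbw
  have e3 : 7 / 8 * a' (A v) ≤ a' (S v) := by linarith [h3.1]
  have e4 : 7 / 8 * a' (A v) * b w ≤ a' (S v) * b w := mul_le_mul_of_nonneg_right e3 hbw
  nlinarith

/-- The orbit of a vector. -/
def orb (S : ℕ → V → V) (v : V) : ℕ → V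
  | 0 => v
  | n + 1 => S n (orb S v n)

/-- The chain of steps. -/
theorem chain (hm : 0 < m) {a b : ℕ → V → ℝ} {S : ℕ → V → V}
    (st : ∀ i, Step m (a i) (b i) (a (i + 1)) (b (i + 1)) (S i)) {v : V} (h : b 0 v ≤ a 0 v)
    (h0 : 0 < a 0 v) (n : ℕ) :
    (b n (orb S v n) ≤ a n (orb S v n) ∧ 0 < a n (orb S v n)) ∧
      ∀ w, a n (orb S w n) ≤ b n (orb S w n) →
        a 0 w ≤ b 0 w ∧ 2 ^ n * (b n (orb S w n) * a 0 v) ≤ a n (orb S v n) * b 0 w := by
  induction n with
  | zero =>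
    refine ⟨⟨h, h0⟩, fun w hw => ⟨hw, ?_⟩⟩
    simp only [orb, pow_zero, one_mul]
    rw [mul_comm]
  | succ n ih =>
    obtain ⟨⟨h1, h2⟩, h3⟩ := ih
    obtain ⟨h4, h5⟩ := (st n).c1 hm h1 h2
    refine ⟨⟨?_, h5⟩, fun w hw => ?_⟩
    · change b (n + 1) (S n (orb S v n)) ≤ a (n + 1) (S n (orb S v n))
      linarith
    · have h6 := (st n).c2 hm hw
      obtain ⟨h7, h8⟩ := h3 w h6
      refine ⟨h7, ?_⟩
      have h9 := (st n).c3 hm h1 h2 h6
      change 2 ^ (n + 1) * (b (n + 1) (S n (orb S w n)) * a 0 v) ≤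
        a (n + 1) (S n (orb S v n)) * b 0 w
      have hb' := (st (n + 1)).hb (S n (orb S w n))
      have hp : (0 : ℝ) < 2 ^ n := by positivity
      -- multiply and cancel
      have e1 : 2 ^ (n + 1) * (b (n + 1) (S n (orb S w n)) * a 0 v) * a n (orb S v n) ≤
          a (n + 1) (S n (orb S v n)) * b 0 w * a n (orb S v n) := by
        calc 2 ^ (n + 1) * (b (n + 1) (S n (orb S w n)) * a 0 v) * a n (orb S v n)
            = 2 ^ (n + 1) * a 0 v * (b (n + 1) (S n (orb S w n)) * a n (orb S v n)) := by ring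
          _ ≤ 2 ^ (n + 1) * a 0 v * (1 / 2 * (a (n + 1) (S n (orb S v n)) * b n (orb S w n))) :=
              mul_le_mul_of_nonneg_left h9 (by positivity)
          _ = a (n + 1) (S n (orb S v n)) * (2 ^ n * (b n (orb S w n) * a 0 v)) := by
              rw [pow_succ]; ring
          _ ≤ a (n + 1) (S n (orb S v n)) * (a n (orb S v n) * b 0 w) :=
              mul_le_mul_of_nonneg_left h8 h5.le
          _ = _ := by ring
      exact le_of_mul_le_mul_right e1 h2

end Pool.Agent.Q138.SA
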