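import Pool.Agent.Q138.SA.Stab

/-!
# Simple Anosov representations are displacing on simple elements, locally uniformly
-/

set_option autoImplicit false

open scoped MatrixGroups UpperHalfPlane Matrix Topology
open UpperHalfPlane

namespace Pool.Agent.Q138.SA

open Pool.Agent.Y473.SA

variable {Γ : Subgroup SL(2, ℝ)} {d k : ℕ}

theorem le_of_pow_le {x y δ K : ℝ} (hy : 0 < y) (hδ : 0 < δ) (h : ∀ q : ℕ, x ^ q * δ ≤ K * y ^ q) :
    x ≤ y := by
  by_contra hcon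
  push Not at hcon
  have h1 : 1 < x / y := by rwa [one_lt_div hy]
  obtain ⟨q, hq⟩ := ((tendsto_pow_atTop_atTop_of_one_lt h1).eventually_gt_atTop (K / δ)).exists
  have h2 := h q
  rw [div_pow, div_lt_div_iff₀ hδ (by positivity)] at hq
  linarith

theorem size_rep_conj (σ : Rep Γ d) (f g : Γ) :
    size (σ.1 (f * g * f⁻¹)).1 = size (σ.1 g).1 := by
  rw [σ.2, σ.2, rep_inv, Matrix.SpecialLinearGroup.coe_mul, Matrix.SpecialLinearGroup.coe_mul]
  apply size_conj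
  rw [← Matrix.SpecialLinearGroup.coe_mul, mul_inv_cancel, Matrix.SpecialLinearGroup.coe_one]

theorem exists_image {P : Matrix (Fin d) (Fin d) ℂ} (hP : P * P = P) (hk : 1 ≤ P.rank) :
    ∃ v : Fin d → ℂ, v ≠ 0 ∧ P *ᵥ v = v := by
  by_contra hcon
  push Not at hcon
  have h0 : P = 0 := by
    rw [← Matrix.toLin'.map_eq_zero_iff]
    apply LinearMap.ext
    intro v
    rw [Matrix.toLin'_apply, LinearMap.zero_apply]
    by_contra hv
    exact hcon _ hv (by rw [Matrix.mulVec_mulVec, hP])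
  rw [h0, Matrix.rank_zero] at hk
  omega

theorem exists_ker {P : Matrix (Fin d) (Fin d) ℂ} (hP : P * P = P) (hk : P.rank < d) :
    ∃ v : Fin d → ℂ, v ≠ 0 ∧ P *ᵥ v = 0 := by
  by_contra hcon
  push Not at hcon
  have h0 : P = 1 := by
    apply Matrix.toLin'.injective
    apply LinearMap.ext
    intro v
    rw [Matrix.toLin'_apply, Matrix.toLin'_one, LinearMap.id_apply]
    by_contra hv
    apply hcon (v - P *ᵥ v) (fun h => hv (sub_eq_zero.1 h).symm)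
    rw [Matrix.mulVec_sub, Matrix.mulVec_mulVec, hP, sub_self]
  rw [h0, Matrix.rank_one, Fintype.card_fin] at hk
  omega

theorem displacing (hΓ : IsClosedSurface Γ) {ρ : Rep Γ d} (h : IsSimpleAnosov k ρ) (hk : 1 ≤ k)
    (hkd : k < d) : ∃ V : Set (Rep Γ d), IsOpen V ∧ ρ ∈ V ∧ ∃ T : ℝ, 0 < T ∧
      ∀ σ ∈ V, ∀ (g : Γ) (c : UT) (l : ℝ), IsSimpleClosed Γ c l → act g c = flow l c →
        ∀ j : ℕ, 0 < j → j * T ≤ l → l ≤ 2 * (j * T) →
          (2 : ℝ) ^ j ≤ max 1 (size (σ.1 g).1) * max 1 (size (σ.1 g⁻¹).1) := by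
  obtain ⟨P, N, r, T, m, V, hVo, hρV, hT, hm, hr, hP, hN0, hC, hstep⟩ := stability hΓ h
  refine ⟨V, hVo, hρV, T, hT, ?_⟩
  intro σ hσ g c l hc hg j hj h1 h2
  have hj' : (0 : ℝ) < j := by exact_mod_cast hj
  set τ := l / j with hτ
  have hτl : j * τ = l := by rw [hτ]; field_simp
  have hτ1 : T ≤ τ := by rw [hτ, le_div_iff₀ hj']; linarith
  have hτ2 : τ ≤ 2 * T := by rw [hτ, div_le_iff₀ hj']; linarith
  choose f hf using fun i : ℕ => hr (flow (i * τ) c)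
  set γ : ℕ → Γ := fun i => f (i % j) * (g⁻¹) ^ (i / j) with hγ
  have hginv := inv_axis hg
  have hgpow : ∀ n : ℕ, act ((g⁻¹) ^ n) c = flow (-(n * l)) c := by
    intro n
    have := zpow_axis hginv n
    rw [zpow_natCast] at this
    rw [this]
    congr 1
    push_cast
    ring
  set C : ℕ → UT := fun i => act (γ i) (flow (i * τ) c) with hCdef
  have hCi : ∀ i, C i = act (f (i % j)) (flow ((i % j : ℕ) * τ) c) := by
    intro i
    change act (f (i % j) * (g⁻¹) ^ (i / j)) (flow (i * τ) c) = _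
    rw [← act_act, act_flow, hgpow, flow_flow]
    congr 2
    have h3 : (i : ℝ) = j * (i / j : ℕ) + (i % j : ℕ) := by
      exact_mod_cast (Nat.div_add_mod i j).symm
    rw [h3, ← hτl]
    ring
  have hCs : ∀ i, IsSimpleClosed Γ (C i) l := fun i => simpleClosed_act (simpleClosed_flow hc _) _
  have hCb : ∀ i, C i ∈ birmanSeries Γ := fun i => mem_birmanSeries (hCs i)
  have hCr : ∀ i, dist I ((C i).1 0) ≤ r := fun i => by rw [hCi]; exact hf _
  set H : ℕ → Γ := fun i => γ (i + 1) * (γ i)⁻¹ with hH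
  have hCnext : ∀ i, act (H i) (flow τ (C i)) = C (i + 1) := by
    intro i
    change act (γ (i + 1) * (γ i)⁻¹) (flow τ (act (γ i) (flow (i * τ) c))) =
      act (γ (i + 1)) (flow ((i + 1 : ℕ) * τ) c)
    rw [← act_flow, act_act, inv_mul_cancel_right, flow_flow]
    congr 2
    push_cast
    ring
  have hst : ∀ i, Step m (ua P N (C i)) (ub P N (C i)) (ua P N (C (i + 1))) (ub P N (C (i + 1)))
      (fun v => (σ.1 (H i)).1 *ᵥ v) := by
    intro i
    have := hstep σ hσ (C i) (hCb i) (hCr i) τ hτ1 hτ2 (H i)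
      (by rw [hCnext]; exact hCb _) (by rw [hCnext]; exact hCr _)
      (mem_birmanSeries (simpleClosed_flow (hCs i) τ))
    rwa [hCnext] at this
  -- the orbits
  have horb : ∀ (v : Fin d → ℂ) (n : ℕ), orb (fun i v => (σ.1 (H i)).1 *ᵥ v) v n =
      (σ.1 (γ n * (γ 0)⁻¹)).1 *ᵥ v := by
    intro v n
    induction n with
    | zero =>
      rw [mul_inv_cancel, rep_one, Matrix.SpecialLinearGroup.coe_one, Matrix.one_mulVec]
      rfl
    | succ n ih =>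
      change (σ.1 (H n)).1 *ᵥ (orb (fun i v => (σ.1 (H i)).1 *ᵥ v) v n) = _
      have e : H n * (γ n * (γ 0)⁻¹) = γ (n + 1) * (γ 0)⁻¹ := by
        change γ (n + 1) * (γ n)⁻¹ * (γ n * (γ 0)⁻¹) = _
        group
      rw [ih, Matrix.mulVec_mulVec, ← Matrix.SpecialLinearGroup.coe_mul, ← σ.2, e]
  set u : Γ := f 0 * g⁻¹ * (f 0)⁻¹ with hu
  have hγ0 : γ 0 = f 0 := by
    change f (0 % j) * (g⁻¹) ^ (0 / j) = f 0
    rw [Nat.zero_mod, Nat.zero_div, pow_zero, mul_one]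
  have hγq : ∀ q : ℕ, γ (j * q) * (γ 0)⁻¹ = u ^ q := by
    intro q
    rw [hγ0]
    change f ((j * q) % j) * (g⁻¹) ^ ((j * q) / j) * (f 0)⁻¹ = u ^ q
    rw [Nat.mul_mod_right, Nat.mul_div_cancel_left q hj, hu, conj_pow]
  have hCq : ∀ q : ℕ, C (j * q) = C 0 := by
    intro q
    rw [hCi, hCi, Nat.mul_mod_right, Nat.zero_mod]
  -- the matrices
  set M : Matrix (Fin d) (Fin d) ℂ := (σ.1 u).1 with hM
  set M' : Matrix (Fin d) (Fin d) ℂ := (σ.1 u⁻¹).1 with hM'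
  have hsM : size M = size (σ.1 g⁻¹).1 := size_rep_conj σ (f 0) g⁻¹
  have hsM' : size M' = size (σ.1 g).1 := by
    have : u⁻¹ = f 0 * g * (f 0)⁻¹ := by rw [hu]; group
    rw [hM', this, size_rep_conj]
  have hMM' : ∀ q : ℕ, ∀ v : Fin d → ℂ, M ^ q *ᵥ (M' ^ q *ᵥ v) = v := by
    intro q v
    have e1 : M ^ q = (σ.1 (u ^ q)).1 := by rw [rep_pow, Matrix.SpecialLinearGroup.coe_pow]
    have e2 : M' ^ q = (σ.1 (u⁻¹ ^ q)).1 := by rw [rep_pow, Matrix.SpecialLinearGroup.coe_pow]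
    rw [Matrix.mulVec_mulVec, e1, e2, ← Matrix.SpecialLinearGroup.coe_mul, ← σ.2, inv_pow,
      mul_inv_cancel, rep_one, Matrix.SpecialLinearGroup.coe_one, Matrix.one_mulVec]
  have horbq : ∀ (v : Fin d → ℂ) (q : ℕ), orb (fun i v => (σ.1 (H i)).1 *ᵥ v) v (j * q) =
      M ^ q *ᵥ v := by
    intro v q
    rw [horb, hγq, rep_pow, Matrix.SpecialLinearGroup.coe_pow]
  -- the test vectors
  obtain ⟨hPP, hPk⟩ := hP (C 0) (hCb 0)
  obtain ⟨v₀, hv₀, hPv₀⟩ := exists_image hPP (by omega)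
  obtain ⟨u₀, hu₀, hPu₀⟩ := exists_ker hPP (by omega)
  have ha0 : ua P N (C 0) v₀ = N (C 0) v₀ := by rw [ua, hPv₀]
  have hb0 : ub P N (C 0) v₀ = 0 := by rw [ub, hPv₀, sub_self, map_zero]
  have hau : ua P N (C 0) u₀ = 0 := by rw [ua, hPu₀, map_zero]
  have hbu : ub P N (C 0) u₀ = N (C 0) u₀ := by rw [ub, hPu₀, sub_zero]
  have hNv : 0 < N (C 0) v₀ := lt_of_le_of_ne (apply_nonneg _ _) fun h => hv₀ (hN0 _ (hCb 0) _ h.symm)
  have hNu : 0 < N (C 0) u₀ := lt_of_le_of_ne (apply_nonneg _ _) fun h => hu₀ (hN0 _ (hCb 0) _ h.symm)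
  obtain ⟨K₁, hK₁0, hK₁⟩ := hC (C 0) (hCb 0) (hCr 0)
  obtain ⟨K₂, hK₂0, hK₂⟩ := growth M v₀
  obtain ⟨K₃, hK₃0, hK₃⟩ := growth M' u₀
  rw [← hsM, ← hsM', mul_comm]
  set B₁ := max 1 (size M) with hB₁
  set B₂ := max 1 (size M') with hB₂
  have hB₁1 : 1 ≤ B₁ := le_max_left _ _
  have hB₂1 : 1 ≤ B₂ := le_max_left _ _
  apply le_of_pow_le (δ := N (C 0) u₀ * N (C 0) v₀) (K := (K₁ * K₂) * (K₁ * K₃)) (by positivity)
    (by positivity)
  intro q
  have hch := (chain hm hst (v := v₀) (by rw [hb0, ha0]; exact hNv.le) (by rw [ha0]; exact hNv)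
    (j * q)).2 (M' ^ q *ᵥ u₀)
  rw [horbq, horbq, hMM', hCq, hau, hbu, ha0] at hch
  have h3 := (hch hNu.le).2
  have h4 : ua P N (C 0) (M ^ q *ᵥ v₀) ≤ K₁ * (K₂ * B₁ ^ q) :=
    (hK₁ _).1.trans (mul_le_mul_of_nonneg_left (hK₂ q) hK₁0)
  have h5 : ub P N (C 0) (M' ^ q *ᵥ u₀) ≤ K₁ * (K₃ * B₂ ^ q) :=
    (hK₁ _).2.trans (mul_le_mul_of_nonneg_left (hK₃ q) hK₁0)
  calc ((2 : ℝ) ^ j) ^ q * (N (C 0) u₀ * N (C 0) v₀)
      = 2 ^ (j * q) * (N (C 0) u₀ * N (C 0) v₀) := by rw [pow_mul]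
    _ ≤ ua P N (C 0) (M ^ q *ᵥ v₀) * ub P N (C 0) (M' ^ q *ᵥ u₀) := h3
    _ ≤ (K₁ * (K₂ * B₁ ^ q)) * (K₁ * (K₃ * B₂ ^ q)) :=
        mul_le_mul h4 h5 (apply_nonneg _ _) (by positivity)
    _ = (K₁ * K₂) * (K₁ * K₃) * (B₁ * B₂) ^ q := by rw [mul_pow]; ring

/-- Near a simple Anosov representation the traces of the simple elements of bounded size are
bounded. -/
theorem displacing' (hΓ : IsClosedSurface Γ) {ρ : Rep Γ d} (h : IsSimpleAnosov k ρ) (hk : 1 ≤ k)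
    (hkd : k < d) : ∃ V : Set (Rep Γ d), IsOpen V ∧ ρ ∈ V ∧ ∀ B : ℝ, ∃ M : ℝ,
      ∀ σ ∈ V, ∀ g : Γ, IsSimpleElt g → size (σ.1 g).1 ≤ B → size (σ.1 g⁻¹).1 ≤ B → |tr g| ≤ M := by
  obtain ⟨V, hVo, hρV, T, hT, hV⟩ := displacing hΓ h hk hkd
  refine ⟨V, hVo, hρV, fun B => ?_⟩
  set B' := max 1 B with hB'
  have hB'1 : 1 ≤ B' := le_max_left _ _
  obtain ⟨J, hJ⟩ := pow_unbounded_of_one_lt (B' * B') (one_lt_two (α := ℝ))
  refine ⟨2 * Real.cosh ((J + 1) * T / 2), fun σ hσ g hg h1 h2 => ?_⟩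
  obtain ⟨c, l, hc, hgc⟩ := hg
  rw [trace_of_axis hgc]
  have hl := hc.1
  apply mul_le_mul_of_nonneg_left _ zero_le_two
  rw [Real.cosh_le_cosh, abs_of_pos (by linarith), abs_of_pos (by positivity)]
  suffices hlt : l ≤ (J + 1) * T by linarith
  by_contra hcon
  push Not at hcon
  set j := ⌊l / T⌋₊ with hj
  have hlT : 0 ≤ l / T := by positivity
  have h3 : (j : ℝ) ≤ l / T := Nat.floor_le hlT
  have h4 : l / T < j + 1 := Nat.lt_floor_add_one _
  rw [le_div_iff₀ hT] at h3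
  rw [div_lt_iff₀ hT] at h4
  have h5 : (J : ℝ) + 1 < j + 1 := by
    by_contra h
    push Not at h
    have := mul_le_mul_of_nonneg_right h hT.le
    linarith
  have h6 : J < j := by
    have : (J : ℝ) < j := by linarith
    exact_mod_cast this
  have hj1 : (1 : ℝ) ≤ j := by
    have : 1 ≤ j := by omega
    exact_mod_cast this
  have h7 := hV σ hσ g c l hc hgc j (by omega) h3 (by nlinarith)
  have h8 : max 1 (size (σ.1 g).1) * max 1 (size (σ.1 g⁻¹).1) ≤ B' * B' :=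
    mul_le_mul (max_le_max le_rfl h1) (max_le_max le_rfl h2) (by positivity) (by positivity)
  have h9 : (2 : ℝ) ^ J ≤ 2 ^ j := pow_le_pow_right₀ one_le_two h6.le
  linarith

end Pool.Agent.Q138.SA
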