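import Pool.Agent.Q138.SA.Disp

/-!
# The domain of the locally uniformly displacing representations
-/

set_option autoImplicit false

open scoped MatrixGroups UpperHalfPlane Matrix Topology
open UpperHalfPlane

namespace Pool.Agent.Q138.SA

open Pool.Agent.Y473.SA

variable {Γ : Subgroup SL(2, ℝ)} {d k : ℕ}

/-! ### Conjugation -/

/-- The linear automorphism of an element of `SL(d, ℂ)`. -/
noncomputable def lin (h : SL(d, ℂ)) : (Fin d → ℂ) ≃ₗ[ℂ] (Fin d → ℂ) :=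
  Matrix.SpecialLinearGroup.toLin' h

theorem lin_apply (h : SL(d, ℂ)) (v : Fin d → ℂ) : lin h v = h.1 *ᵥ v := rfl

theorem lin_symm_apply (h : SL(d, ℂ)) (v : Fin d → ℂ) : (lin h).symm v = (h⁻¹).1 *ᵥ v := by
  rw [LinearEquiv.symm_apply_eq, lin_apply, Matrix.mulVec_mulVec,
    ← Matrix.SpecialLinearGroup.coe_mul, mul_inv_cancel, Matrix.SpecialLinearGroup.coe_one,
    Matrix.one_mulVec]

/-- The conjugate representation. -/
def conjR (h : SL(d, ℂ)) (ρ : Rep Γ d) : Rep Γ d :=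
  ⟨fun g => h * ρ.1 g * h⁻¹, fun x y => by
    change h * ρ.1 (x * y) * h⁻¹ = (h * ρ.1 x * h⁻¹) * (h * ρ.1 y * h⁻¹)
    rw [ρ.2]; group⟩

theorem conjR_cr (h : SL(d, ℂ)) {ρ : Rep Γ d} (hρ : IsCompletelyReducible ρ) :
    IsCompletelyReducible (conjR h ρ) := by
  intro W hW
  obtain ⟨W', h1, h2⟩ := hρ (W.map (lin h).symm.toLinearMap) (by
    rintro g _ ⟨w, hw, rfl⟩
    refine ⟨((conjR h ρ).1 g).1 *ᵥ w, hW g w hw, ?_⟩
    change (lin h).symm _ = (ρ.1 g).1 *ᵥ ((lin h).symm w)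
    rw [lin_symm_apply, lin_symm_apply, Matrix.mulVec_mulVec, Matrix.mulVec_mulVec]
    congr 1
    change (h⁻¹).1 * (h * ρ.1 g * h⁻¹ : SL(d, ℂ)).1 = _
    rw [← Matrix.SpecialLinearGroup.coe_mul, ← Matrix.SpecialLinearGroup.coe_mul]
    congr 1
    rw [mul_assoc, inv_mul_cancel_left])
  refine ⟨W'.map (lin h).toLinearMap, ?_, ?_⟩
  · rintro g _ ⟨w, hw, rfl⟩
    refine ⟨(ρ.1 g).1 *ᵥ w, h1 g w hw, ?_⟩
    change lin h _ = (h * ρ.1 g * h⁻¹ : SL(d, ℂ)).1 *ᵥ (lin h w)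
    rw [lin_apply, lin_apply, Matrix.mulVec_mulVec, Matrix.mulVec_mulVec]
    congr 1
    rw [← Matrix.SpecialLinearGroup.coe_mul, ← Matrix.SpecialLinearGroup.coe_mul]
    congr 1
    rw [inv_mul_cancel_right]
  · have h3 := (Submodule.orderIsoMapComap (lin h)).isCompl h2
    have e : (W.map (lin h).symm.toLinearMap).map (lin h).toLinearMap = W := by
      rw [← Submodule.map_comp]
      have : (lin h).toLinearMap ∘ₗ (lin h).symm.toLinearMap = LinearMap.id := by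
        ext v; simp
      rw [this, Submodule.map_id]
    have h4 : IsCompl ((W.map (lin h).symm.toLinearMap).map (lin h).toLinearMap)
        (W'.map (lin h).toLinearMap) := h3
    rwa [e] at h4

/-- Conjugation of completely reducible representations. -/
def conjC (h : SL(d, ℂ)) (ρ : CRep Γ d) : CRep Γ d := ⟨conjR h ρ.1, conjR_cr h ρ.2⟩

theorem continuous_conjC (h : SL(d, ℂ)) : Continuous (conjC (Γ := Γ) h) := by
  apply Continuous.subtype_mk
  apply Continuous.subtype_mk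
  apply continuous_pi
  intro g
  have h1 : Continuous fun ρ : CRep Γ d => ρ.1.1 g :=
    (continuous_apply g).comp (continuous_subtype_val.comp continuous_subtype_val)
  exact (continuous_const.mul h1).mul continuous_const

theorem mk_conjC (h : SL(d, ℂ)) (ρ : CRep Γ d) :
    (Quotient.mk (conjSetoid Γ d) (conjC h ρ)) = Quotient.mk _ ρ :=
  Quotient.sound ((conjSetoid Γ d).symm ⟨h, fun _ => rfl⟩)

theorem exists_conjC {ρ ρ' : CRep Γ d}
    (h : (Quotient.mk (conjSetoid Γ d) ρ) = Quotient.mk _ ρ') : ∃ h, ρ' = conjC h ρ := by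
  obtain ⟨h, hh⟩ := Quotient.exact h
  refine ⟨h, ?_⟩
  apply Subtype.ext
  apply Subtype.ext
  funext g
  exact hh g

theorem size_conjC (h : SL(d, ℂ)) (ρ : CRep Γ d) (g : Γ) :
    size ((conjC h ρ).1.1 g).1 = size (ρ.1.1 g).1 := by
  change size (h * ρ.1.1 g * h⁻¹ : SL(d, ℂ)).1 = _
  rw [Matrix.SpecialLinearGroup.coe_mul, Matrix.SpecialLinearGroup.coe_mul]
  apply size_conj
  rw [← Matrix.SpecialLinearGroup.coe_mul, mul_inv_cancel, Matrix.SpecialLinearGroup.coe_one]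

/-- The image of an open set in the character variety is open. -/
theorem isOpen_image {V : Set (CRep Γ d)} (hV : IsOpen V) :
    IsOpen {x : CharVar Γ d | ∃ σ ∈ V, Quotient.mk _ σ = x} := by
  have hq : Topology.IsQuotientMap (Quotient.mk (conjSetoid Γ d)) := isQuotientMap_quot_mk
  rw [← hq.isOpen_preimage]
  have : (Quotient.mk (conjSetoid Γ d) ⁻¹' {x : CharVar Γ d | ∃ σ ∈ V, Quotient.mk _ σ = x} : Set (CRep Γ d)) =
      ⋃ h : SL(d, ℂ), (conjC h) ⁻¹' V := by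
    ext ρ
    simp only [Set.mem_preimage, Set.mem_ofPred_eq, Set.mem_iUnion]
    constructor
    · rintro ⟨σ, hσ, h⟩
      obtain ⟨h', rfl⟩ := exists_conjC (ρ := ρ) (ρ' := σ) h.symm
      exact ⟨h', hσ⟩
    · rintro ⟨h, hh⟩
      exact ⟨_, hh, mk_conjC h ρ⟩
  rw [this]
  exact isOpen_iUnion fun h => hV.preimage (continuous_conjC h)

/-! ### The domain -/

/-- The representations in `V` are displacing on the simple elements, uniformly. -/
def UnifDisp (V : Set (CRep Γ d)) : Prop :=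
  ∀ B : ℝ, ∃ M : ℝ, ∀ σ ∈ V, ∀ g : Γ, IsSimpleElt g → size (σ.1.1 g).1 ≤ B →
    size (σ.1.1 g⁻¹).1 ≤ B → |tr g| ≤ M

/-- The set of the classes of the representations with a neighbourhood on which the simple
elements are displaced uniformly. -/
def dispDomain (Γ : Subgroup SL(2, ℝ)) (d : ℕ) : Set (CharVar Γ d) :=
  {x | ∃ V : Set (CRep Γ d), IsOpen V ∧ UnifDisp V ∧ ∃ σ ∈ V, Quotient.mk _ σ = x}

theorem isOpen_dispDomain : IsOpen (dispDomain Γ d) := by
  have : dispDomain Γ d = ⋃ V : {V : Set (CRep Γ d) // IsOpen V ∧ UnifDisp V},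
      {x : CharVar Γ d | ∃ σ ∈ V.1, Quotient.mk _ σ = x} := by
    ext x
    simp only [dispDomain, Set.mem_ofPred_eq, Set.mem_iUnion, Subtype.exists]
    constructor
    · rintro ⟨V, h1, h2, h3⟩
      exact ⟨V, ⟨h1, h2⟩, h3⟩
    · rintro ⟨V, ⟨h1, h2⟩, h3⟩
      exact ⟨V, h1, h2, h3⟩
  rw [this]
  exact isOpen_iUnion fun V => isOpen_image V.2.1

theorem simpleAnosovDomain_subset (hΓ : IsClosedSurface Γ) (hk : 1 ≤ k) (hkd : k < d) :
    simpleAnosovDomain Γ d k ⊆ dispDomain Γ d := by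
  rintro x ⟨ρ, hρ, rfl⟩
  obtain ⟨V, hV, hρV, h⟩ := displacing' hΓ hρ hk hkd
  refine ⟨Subtype.val ⁻¹' V, hV.preimage continuous_subtype_val, ?_, ρ, hρV, rfl⟩
  intro B
  obtain ⟨M, hM⟩ := h B
  exact ⟨M, fun σ hσ => hM σ.1 hσ⟩

theorem tr_conj_grp (h g : Γ) : tr (h * g * h⁻¹ : Γ) = tr (g : SL(2, ℝ)) := by
  have e := tr_conj ((h : SL(2, ℝ)))⁻¹ g
  rw [inv_inv] at e
  rw [Subgroup.coe_mul, Subgroup.coe_mul, Subgroup.coe_inv, e]

/-- Automorphisms distort the trace boundedly. -/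
theorem tr_aut (hΓ : IsClosedSurface Γ) (φ : MulAut Γ) (M : ℝ) :
    ∃ M' : ℝ, ∀ g : Γ, |tr g| ≤ M → |tr (φ g)| ≤ M' := by
  obtain ⟨r, hr0, hr⟩ := hΓ.exists_radius
  set L := 2 * Real.arcosh (max 1 (M / 2)) with hL
  have hfin := hΓ.finite_disp r L
  obtain ⟨M', hM'⟩ := (hfin.image fun g : Γ => |tr (φ g)|).bddAbove
  refine ⟨max M' (|tr (φ 1)|), fun g hg => ?_⟩
  rcases eq_or_ne g 1 with rfl | hg1
  · exact le_max_right _ _
  obtain ⟨c, l, hl, hc⟩ := hΓ.exists_axis hg1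
  rw [trace_of_axis hc] at hg
  have h1 : l ≤ L := by
    have h2 : Real.cosh (l / 2) ≤ Real.cosh (Real.arcosh (max 1 (M / 2))) := by
      rw [Real.cosh_arcosh (le_max_left _ _)]
      exact le_trans (by linarith) (le_max_right _ _)
    rw [Real.cosh_le_cosh, abs_of_pos (by linarith),
      abs_of_nonneg (Real.arcosh_nonneg (le_max_left _ _))] at h2
    linarith
  obtain ⟨h, hh⟩ := hr (c.1 0)
  have h3 : h * g * h⁻¹ ∈ {g : Γ | ∃ z, dist I z ≤ r ∧ dist z (g • z) ≤ L} := by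
    refine ⟨h • c.1 0, hh, ?_⟩
    rw [mul_smul (h * g) h⁻¹, inv_smul_smul, mul_smul, dist_smul, dist_axis hl hc]
    exact h1
  have h4 := hM' ⟨_, h3, rfl⟩
  dsimp only at h4
  rw [map_mul, map_mul, map_inv, tr_conj_grp] at h4
  exact h4.trans (le_max_left _ _)

/-- Twisting completely reducible representations. -/
def twistC (φ : MulAut Γ) (ρ : CRep Γ d) : CRep Γ d :=
  ⟨twistRep φ ρ.1, twistRep_completelyReducible φ ρ.2⟩

theorem continuous_twistC (φ : MulAut Γ) : Continuous (twistC (d := d) φ) := by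
  apply Continuous.subtype_mk
  apply Continuous.subtype_mk
  apply continuous_pi
  intro g
  exact (continuous_apply (φ⁻¹ g)).comp (continuous_subtype_val.comp continuous_subtype_val)

theorem twist_mk (φ : MulAut Γ) (ρ : CRep Γ d) :
    twist φ (Quotient.mk _ ρ) = Quotient.mk _ (twistC φ ρ) := rfl

theorem dispDomain_invariant (hΓ : IsClosedSurface Γ) (φ : MulAut Γ) :
    ∀ x ∈ dispDomain Γ d, twist φ x ∈ dispDomain Γ d := by
  rintro x ⟨V, hV, hdisp, σ, hσ, rfl⟩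
  refine ⟨twistC φ⁻¹ ⁻¹' V, hV.preimage (continuous_twistC _), ?_, twistC φ σ, ?_, rfl⟩
  · intro B
    obtain ⟨M, hM⟩ := hdisp B
    obtain ⟨M', hM'⟩ := tr_aut hΓ φ M
    refine ⟨M', fun τ hτ g hg h1 h2 => ?_⟩
    have h3 := hM _ hτ (φ⁻¹ g) (hΓ.simple_aut φ⁻¹ hg) (by
      change size (τ.1.1 ((φ⁻¹)⁻¹ (φ⁻¹ g))).1 ≤ B
      rwa [MulAut.inv_apply_self]) (by
      change size (τ.1.1 ((φ⁻¹)⁻¹ (φ⁻¹ g)⁻¹)).1 ≤ B
      rwa [map_inv, MulAut.inv_apply_self])
    have h4 := hM' _ h3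
    rwa [MulAut.apply_inv_self] at h4
  · have : twistC φ⁻¹ (twistC φ σ) = σ := by
      apply Subtype.ext
      apply Subtype.ext
      funext g
      change σ.1.1 (φ⁻¹ ((φ⁻¹)⁻¹ g)) = σ.1.1 g
      rw [MulAut.apply_inv_self]
    rw [Set.mem_preimage, this]
    exact hσ

/-- The size as a function on the character variety. -/
noncomputable def sizeAt (g : Γ) : CharVar Γ d → ℝ :=
  Quotient.lift (fun ρ : CRep Γ d => size (ρ.1.1 g).1) (by
    rintro ρ ρ' ⟨h, hh⟩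
    have e : ρ' = conjC h ρ := Subtype.ext (Subtype.ext (funext hh))
    rw [e, size_conjC])

theorem continuous_sizeAt (g : Γ) : Continuous (sizeAt (d := d) g) := by
  apply Continuous.quotient_lift
  exact continuous_size.comp ((continuous_eval g).comp continuous_subtype_val)

/-- **The set `dispDomain` is a domain of discontinuity.** -/
theorem isDomain (hΓ : IsClosedSurface Γ) : IsDomainOfDiscontinuity (dispDomain Γ d) := by
  refine ⟨isOpen_dispDomain, dispDomain_invariant hΓ, fun K hKU hK => ?_⟩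
  -- uniform displacement on `K`
  have hunif : ∀ B : ℝ, ∃ M : ℝ, ∀ σ : CRep Γ d, Quotient.mk _ σ ∈ K → ∀ g : Γ, IsSimpleElt g →
      size (σ.1.1 g).1 ≤ B → size (σ.1.1 g⁻¹).1 ≤ B → |tr g| ≤ M := by
    intro B
    apply hK.induction_on (p := fun K => ∃ M : ℝ, ∀ σ : CRep Γ d, Quotient.mk _ σ ∈ K → ∀ g : Γ,
      IsSimpleElt g → size (σ.1.1 g).1 ≤ B → size (σ.1.1 g⁻¹).1 ≤ B → |tr g| ≤ M)
    · exact ⟨0, fun σ hσ => hσ.elim⟩
    · rintro s t hst ⟨M, hM⟩
      exact ⟨M, fun σ hσ => hM σ (hst hσ)⟩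
    · rintro s t ⟨M, hM⟩ ⟨M', hM'⟩
      refine ⟨max M M', fun σ hσ g hg h1 h2 => ?_⟩
      rcases hσ with hσ | hσ
      · exact (hM σ hσ g hg h1 h2).trans (le_max_left _ _)
      · exact (hM' σ hσ g hg h1 h2).trans (le_max_right _ _)
    · intro x hx
      obtain ⟨V, hV, hdisp, σ, hσ, rfl⟩ := hKU hx
      refine ⟨{x : CharVar Γ d | ∃ σ ∈ V, Quotient.mk _ σ = x},
        mem_nhdsWithin_of_mem_nhds ((isOpen_image hV).mem_nhds ⟨σ, hσ, rfl⟩), ?_⟩
      obtain ⟨M, hM⟩ := hdisp B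
      refine ⟨M, fun τ hτ g hg h1 h2 => ?_⟩
      obtain ⟨τ', hτ', h3⟩ := hτ
      obtain ⟨h, rfl⟩ := exists_conjC h3
      rw [size_conjC] at h1 h2
      exact hM _ hτ' g hg h1 h2
  -- upper bounds
  have hup : ∀ g : Γ, ∃ B : ℝ, ∀ σ : CRep Γ d, Quotient.mk _ σ ∈ K → size (σ.1.1 g).1 ≤ B := by
    intro g
    obtain ⟨B, hB⟩ := hK.bddAbove_image (continuous_sizeAt g).continuousOn
    exact ⟨B, fun σ hσ => hB ⟨_, hσ, rfl⟩⟩
  have := outFinite_simple hΓ {φ | ∃ x ∈ K, twist φ x ∈ K} (by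
    intro g hg
    obtain ⟨B, hB⟩ := hup g
    obtain ⟨B', hB'⟩ := hup g⁻¹
    obtain ⟨M, hM⟩ := hunif (max B B')
    refine ⟨M, ?_⟩
    rintro φ ⟨x, hx, hφx⟩
    obtain ⟨σ, rfl⟩ := Quotient.exists_rep x
    rw [twist_mk] at hφx
    apply hM _ hφx (φ g) (hΓ.simple_aut φ hg)
    · change size (σ.1.1 (φ⁻¹ (φ g))).1 ≤ _
      rw [MulAut.inv_apply_self]
      exact (hB σ hx).trans (le_max_left _ _)
    · change size (σ.1.1 (φ⁻¹ (φ g)⁻¹)).1 ≤ _
      rw [map_inv, MulAut.inv_apply_self]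
      exact (hB' σ hx).trans (le_max_right _ _))
  refine this.subset ?_
  rintro q ⟨φ, rfl, h⟩
  exact ⟨φ, h, rfl⟩

end Pool.Agent.Q138.SA
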