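import Pool.Agent.Q138.SA.CR

/-!
# The frame bundle over the unit tangent bundle
-/

set_option autoImplicit false

open scoped MatrixGroups UpperHalfPlane Matrix Topology Kronecker
open UpperHalfPlane

namespace Pool.Agent.Q138.SA

open Pool.Agent.Y473.SA

variable {Γ : Subgroup SL(2, ℝ)} {m n d : ℕ}

/-- The matrix `diag(e^{t/2}, e^{-t/2})`. -/
noncomputable def dA (t : ℝ) : SL(2, ℝ) :=
  ⟨!![Real.exp (t / 2), 0; 0, Real.exp (-(t / 2))], by
    rw [Matrix.det_fin_two_of, ← Real.exp_add]; simp⟩

theorem dA_smul_vp (t s : ℝ) : dA t • vp s = vp (s + t) := by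
  have h00 : dA t 0 0 = Real.exp (t / 2) := rfl
  have h01 : dA t 0 1 = 0 := rfl
  have h10 : dA t 1 0 = 0 := rfl
  have h11 : dA t 1 1 = Real.exp (-(t / 2)) := rfl
  apply UpperHalfPlane.ext_re_im
  · rw [smul_re, h00, h01, h10, h11]
    simp
  · rw [smul_im, h10, h11]
    simp only [vp_re, vp_im, zero_mul, zero_add]
    rw [zero_pow two_ne_zero, add_zero, ← Real.exp_nat_mul, ← Real.exp_sub]
    congr 1
    push_cast
    ring

theorem flow_geod (t : ℝ) (h : SL(2, ℝ)) : flow t (geod h) = geod (h * dA t) := by
  apply Subtype.ext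
  funext s
  rw [flow_apply, geod_apply, geod_apply, mul_smul, dA_smul_vp]

theorem act_geod (g : Γ) (h : SL(2, ℝ)) : act g (geod h) = geod (g * h) := by
  apply Subtype.ext
  funext s
  rw [act_apply, geod_apply, geod_apply, mul_smul]
  rfl

theorem geod_eq {h h' : SL(2, ℝ)} (he : geod h = geod h') : h' = h ∨ h' = -h := by
  have h1 : ∀ t, (h⁻¹ * h') • vp t = vp (t + 0) := by
    intro t
    have := congrArg (fun c : UT => c.1 t) he
    simp only [geod_apply] at this
    rw [mul_smul, ← this, inv_smul_smul, add_zero]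
  obtain ⟨lam, hl, h00, h11, h01, h10⟩ := diag_of_vp h1
  rw [Real.exp_zero, sq_eq_one_iff] at hl
  rcases hl with rfl | rfl
  · left
    have : h⁻¹ * h' = 1 := by
      ext i j
      fin_cases i <;> fin_cases j
      · exact h00
      · exact h01
      · exact h10
      · simpa using h11
    exact (inv_mul_eq_one.1 this).symm
  · right
    have : h⁻¹ * h' = -1 := by
      ext i j
      fin_cases i <;> fin_cases j
      · simpa using h00
      · simpa using h01
      · simpa using h10
      · simpa using h11
    rw [inv_mul_eq_iff_eq_mul] at this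
    rw [this]
    ext i j
    simp

theorem continuous_geod : Continuous geod := by
  apply Continuous.subtype_mk
  apply continuous_pi
  intro t
  exact continuous_id.smul continuous_const

instance : WeaklyLocallyCompactSpace UT where
  exists_compact_mem_nhds c := by
    refine ⟨_, isCompact_ball (dist I (c.1 0) + 1), ?_⟩
    have h1 : IsOpen {c' : UT | dist I (c'.1 0) < dist I (c.1 0) + 1} :=
      isOpen_lt (continuous_const.dist ((continuous_apply 0).comp continuous_subtype_val))
        continuous_const
    refine Filter.mem_of_superset (h1.mem_nhds ?_) fun c' hc' => ?_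
    · change dist I (c.1 0) < dist I (c.1 0) + 1
      linarith
    · have h3 : dist I (c'.1 0) < dist I (c.1 0) + 1 := hc'
      exact h3.le

theorem isCompact_entries (C : ℝ) : IsCompact {h : SL(2, ℝ) | ∀ i j, |h i j| ≤ C} := by
  have hcl : IsClosed {A : Matrix (Fin 2) (Fin 2) ℝ | A.det = 1} :=
    isClosed_eq (continuous_id.matrix_det) continuous_const
  have hemb : Topology.IsClosedEmbedding (Subtype.val : SL(2, ℝ) → Matrix (Fin 2) (Fin 2) ℝ) :=
    hcl.isClosedEmbedding_subtypeVal
  have hc : IsCompact {A : Matrix (Fin 2) (Fin 2) ℝ | ∀ i j, A i j ∈ Metric.closedBall (0 : ℝ) C} := by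
    have e : {A : Matrix (Fin 2) (Fin 2) ℝ | ∀ i j, A i j ∈ Metric.closedBall (0 : ℝ) C} =
        Set.pi Set.univ fun _ : Fin 2 => Set.pi Set.univ fun _ : Fin 2 =>
          Metric.closedBall (0 : ℝ) C := by
      ext A
      exact ⟨fun H i _ j _ => H i j, fun H i j => H i trivial j trivial⟩
    rw [e]
    exact isCompact_univ_pi fun _ => isCompact_univ_pi fun _ => isCompact_closedBall _ _
  have h1 := hemb.isCompact_preimage hc
  have e : {h : SL(2, ℝ) | ∀ i j, |h i j| ≤ C} =
      Subtype.val ⁻¹' {A : Matrix (Fin 2) (Fin 2) ℝ | ∀ i j, A i j ∈ Metric.closedBall (0 : ℝ) C} := by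
    ext h
    exact forall_congr' fun i => forall_congr' fun j => by
      rw [mem_closedBall_zero_iff]; rfl
  rw [e]
  exact h1

theorem isProperMap_geod : IsProperMap geod := by
  rw [isProperMap_iff_isCompact_preimage]
  refine ⟨continuous_geod, fun K hK => ?_⟩
  have hf : Continuous fun c : UT => dist I (c.1 0) :=
    continuous_const.dist ((continuous_apply 0).comp continuous_subtype_val)
  obtain ⟨R, hR⟩ := hK.bddAbove_image hf.continuousOn
  set C := Real.sqrt (2 * Real.cosh (max R 0)) with hC
  refine (isCompact_entries C).of_isClosed_subset (hK.isClosed.preimage continuous_geod) ?_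
  intro h hh i j
  have h1 : dist I (h • I) ≤ R := by
    have := hR ⟨geod h, hh, rfl⟩
    simpa [geod_apply, vp_zero] using this
  have h2 : Real.cosh (dist I (h • I)) ≤ Real.cosh (max R 0) := by
    rw [Real.cosh_le_cosh, abs_of_nonneg dist_nonneg, abs_of_nonneg (le_max_right _ _)]
    exact h1.trans (le_max_left _ _)
  rw [cosh_dist_smul_I] at h2
  rw [hC]
  apply Real.le_sqrt_of_sq_le
  rw [sq_abs]
  have q0 := sq_nonneg (h 0 0)
  have q1 := sq_nonneg (h 0 1)
  have q2 := sq_nonneg (h 1 0)
  have q3 := sq_nonneg (h 1 1)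
  fin_cases i <;> fin_cases j <;> simp only [Fin.zero_eta, Fin.mk_one, Fin.isValue] <;> linarith

theorem geod_surjective : Function.Surjective geod := fun c => by
  obtain ⟨h, rfl⟩ := exists_geod c
  exact ⟨h, rfl⟩

/-- Continuity on the unit tangent bundle can be checked on the frame bundle. -/
theorem continuous_of_geod {X Y : Type*} [TopologicalSpace X] [TopologicalSpace Y] {f : UT × X → Y}
    (hf : Continuous fun p : SL(2, ℝ) × X => f (geod p.1, p.2)) : Continuous f := by
  have h1 : IsProperMap (Prod.map geod (id : X → X)) := isProperMap_geod.prodMap isProperMap_id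
  have h2 : Topology.IsQuotientMap (Prod.map geod (id : X → X)) :=
    h1.isClosedMap.isQuotientMap h1.continuous (geod_surjective.prodMap Function.surjective_id)
  rw [h2.continuous_iff]
  exact hf

end Pool.Agent.Q138.SA
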