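import Pool.Agent.Q138.SA.Ex

/-!
# The example is simple `m`-Anosov
-/

set_option autoImplicit false

open scoped MatrixGroups UpperHalfPlane Matrix Topology Kronecker
open UpperHalfPlane

namespace Pool.Agent.Q138.SA

open Pool.Agent.Y473.SA

variable {Γ : Subgroup SL(2, ℝ)} {m n d : ℕ}

theorem rank_BM_diag (x y z : ℂ) : (BM m n !![x, 0; 0, y] z).rank =
    (if x ≠ 0 then m else 0) + (if y ≠ 0 then m else 0) + (if z ≠ 0 then n else 0) := by
  classical
  rw [BM_diag, Matrix.rank_diagonal, Fintype.card_subtype, Finset.card_filter]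
  rw [Equiv.sum_comp (enum m n).symm (fun i => if wt x y z i ≠ 0 then 1 else 0),
    Fintype.sum_sum_type, Fintype.sum_prod_type, Fin.sum_univ_two]
  simp only [wt]
  simp
  split_ifs <;> simp_all

theorem rank_conj {A H H' : Matrix (Fin d) (Fin d) ℂ} (h : H * H' = 1) :
    (H * A * H').rank = A.rank := by
  have h' : H' * H = 1 := mul_eq_one_comm.1 h
  have u1 : IsUnit H.det := by
    rw [← Matrix.isUnit_iff_isUnit_det]
    exact ⟨⟨H, H', h, h'⟩, rfl⟩
  have u2 : IsUnit H'.det := by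
    rw [← Matrix.isUnit_iff_isUnit_det]
    exact ⟨⟨H', H, h', h⟩, rfl⟩
  rw [Matrix.rank_mul_eq_left_of_isUnit_det _ _ u2, Matrix.rank_mul_eq_right_of_isUnit_det _ _ u1]

/-- A frame of a unit tangent vector. -/
noncomputable def fr (c : UT) : SL(2, ℝ) := (geod_surjective c).choose

theorem geod_fr (c : UT) : geod (fr c) = c := (geod_surjective c).choose_spec

/-- The projections. -/
noncomputable def PP (m n : ℕ) (c : UT) : Matrix (Fin (2 * m + n)) (Fin (2 * m + n)) ℂ :=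
  BM m n (cx (fr c) * !![0, 0; 0, 1] * cx (fr c)⁻¹) 0

/-- The norms. -/
noncomputable def NN (m n : ℕ) (c : UT) : Seminorm ℂ (Fin (2 * m + n) → ℂ) :=
  (normSeminorm ℂ (Fin (2 * m + n) → ℂ)).comp (Matrix.mulVecLin (BM m n (cx (fr c)⁻¹) 1))

theorem NN_apply (c : UT) (v : Fin (2 * m + n) → ℂ) :
    NN m n c v = ‖BM m n (cx (fr c)⁻¹) 1 *ᵥ v‖ := rfl

theorem cx_neg (h : SL(2, ℝ)) : cx (-h) = - cx h := by
  ext i j
  simp [cx]

theorem neg_inv' (h : SL(2, ℝ)) : (-h)⁻¹ = -h⁻¹ := by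
  rw [inv_eq_iff_mul_eq_one]
  simp

theorem PP_geod (h : SL(2, ℝ)) : PP m n (geod h) = BM m n (cx h * !![0, 0; 0, 1] * cx h⁻¹) 0 := by
  rw [PP]
  rcases geod_eq (geod_fr (geod h)) with e | e
  · rw [← e]
  · have e2 : cx (fr (geod h)) * !![0, 0; 0, 1] * cx (fr (geod h))⁻¹ =
        cx (-fr (geod h)) * !![0, 0; 0, 1] * cx (-fr (geod h))⁻¹ := by
      rw [neg_inv', cx_neg, cx_neg, neg_mul, neg_mul, mul_neg, neg_neg]
    rw [e2, ← e]

theorem norm_diag {w : Fin d → ℂ} (hw : ∀ i, ‖w i‖ = 1) (x : Fin d → ℂ) :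
    ‖Matrix.diagonal w *ᵥ x‖ = ‖x‖ := by
  have h : ∀ i, ‖(Matrix.diagonal w *ᵥ x) i‖ = ‖x i‖ := by
    intro i
    rw [Matrix.mulVec_diagonal, norm_mul, hw, one_mul]
  apply le_antisymm
  · rw [pi_norm_le_iff_of_nonneg (norm_nonneg _)]
    intro i
    rw [h]
    exact norm_le_pi_norm x i
  · rw [pi_norm_le_iff_of_nonneg (norm_nonneg _)]
    intro i
    rw [← h]
    exact norm_le_pi_norm _ i

theorem norm_neg_one (x : Fin (2 * m + n) → ℂ) : ‖BM m n (-1) 1 *ᵥ x‖ = ‖x‖ := by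
  have e : (-1 : Matrix (Fin 2) (Fin 2) ℂ) = !![-1, 0; 0, -1] := by
    ext i j
    fin_cases i <;> fin_cases j <;> simp
  rw [e, BM_diag]
  apply norm_diag
  intro i
  rcases (enum m n).symm i with ⟨i', a⟩ | i' <;> simp [wt]

theorem NN_geod (h : SL(2, ℝ)) (v : Fin (2 * m + n) → ℂ) :
    NN m n (geod h) v = ‖BM m n (cx h⁻¹) 1 *ᵥ v‖ := by
  rw [NN_apply]
  rcases geod_eq (geod_fr (geod h)) with e | e
  · rw [← e]
  · have e2 : h = -fr (geod h) := e
    have e3 : BM m n (cx h⁻¹) 1 = BM m n (-1) 1 * BM m n (cx (fr (geod h))⁻¹) 1 := by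
      rw [BM_mul, neg_one_mul, mul_one]
      nth_rewrite 1 [e2]
      rw [neg_inv', cx_neg]
    rw [e3, ← Matrix.mulVec_mulVec, norm_neg_one]

theorem cx_dA (t : ℝ) : cx (dA t) = !![(Real.exp (t / 2) : ℂ), 0; 0, (Real.exp (-(t / 2)) : ℂ)] := by
  ext i j
  fin_cases i <;> fin_cases j <;> simp [cx, dA]

theorem cx_dA_inv (t : ℝ) :
    cx (dA t)⁻¹ = !![(Real.exp (-(t / 2)) : ℂ), 0; 0, (Real.exp (t / 2) : ℂ)] := by
  have h : (dA t)⁻¹ = dA (-t) := by
    rw [inv_eq_iff_mul_eq_one]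
    ext i j
    rw [sl_mul_apply]
    fin_cases i <;> fin_cases j <;> simp [dA, ← Real.exp_add, neg_div]
  rw [h, cx_dA]
  congr 3
  · congr 2; ring
  · congr 2; ring

theorem cx_inv_mul (h : SL(2, ℝ)) : cx h⁻¹ * cx h = 1 := by rw [← cx_mul, inv_mul_cancel, cx_one]
theorem cx_mul_inv (h : SL(2, ℝ)) : cx h * cx h⁻¹ = 1 := by rw [← cx_mul, mul_inv_cancel, cx_one]

theorem continuous_cx : Continuous cx := by
  unfold cx
  exact continuous_subtype_val.matrix_map Complex.continuous_ofReal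

/-- **The example is simple `m`-Anosov.** -/
theorem exRep_anosov (Γ : Subgroup SL(2, ℝ)) (m n : ℕ) : IsSimpleAnosov m (exRep Γ m n) := by
  have hE2 : (!![0, 0; 0, 1] : Matrix (Fin 2) (Fin 2) ℂ) * !![0, 0; 0, 1] = !![0, 0; 0, 1] := by
    ext i j
    fin_cases i <;> fin_cases j <;> simp
  have hcomm : ∀ t, cx (dA t) * (!![0, 0; 0, 1] : Matrix (Fin 2) (Fin 2) ℂ) * cx (dA t)⁻¹ =
      !![0, 0; 0, 1] := by
    intro t
    rw [cx_dA, cx_dA_inv]
    ext i j
    fin_cases i <;> fin_cases j <;> simp [← Complex.exp_add]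
  refine ⟨PP m n, NN m n, 1, 1 / 2, one_pos, by norm_num, ?_, ?_, ?_, ?_, ?_, ?_, ?_, ?_⟩
  · -- continuity of the projections
    apply Continuous.continuousOn
    have h1 : Topology.IsQuotientMap geod :=
      isProperMap_geod.isClosedMap.isQuotientMap continuous_geod geod_surjective
    rw [h1.continuous_iff]
    have h2 : PP m n ∘ geod = fun h => BM m n (cx h * !![0, 0; 0, 1] * cx h⁻¹) 0 :=
      funext fun h => PP_geod h
    rw [h2]
    apply continuous_BM _ continuous_const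
    exact (continuous_cx.mul continuous_const).mul (continuous_cx.comp continuous_inv)
  · intro c _
    obtain ⟨h, rfl⟩ := exists_geod c
    rw [PP_geod]
    constructor
    · rw [BM_mul, mul_zero]
      congr 1
      calc cx h * !![0, 0; 0, 1] * cx h⁻¹ * (cx h * !![0, 0; 0, 1] * cx h⁻¹)
          = cx h * !![0, 0; 0, 1] * (cx h⁻¹ * cx h) * !![0, 0; 0, 1] * cx h⁻¹ := by
            simp only [mul_assoc]
        _ = cx h * !![0, 0; 0, 1] * cx h⁻¹ := by
            rw [cx_inv_mul, mul_one, mul_assoc (cx h), hE2]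
    · have e : BM m n (cx h * !![0, 0; 0, 1] * cx h⁻¹) 0 =
          BM m n (cx h) 1 * BM m n !![0, 0; 0, 1] 0 * BM m n (cx h⁻¹) 1 := by
        rw [BM_mul, BM_mul, mul_one, one_mul]
      rw [e, rank_conj (by rw [BM_mul, cx_mul_inv, one_mul, BM_one]), rank_BM_diag]
      simp
  · intro c _ g
    obtain ⟨h, rfl⟩ := exists_geod c
    rw [act_geod, PP_geod, PP_geod, exRep_apply, RM_coe, BM_mul, BM_mul]
    congr 1
    · rw [cx_mul, mul_inv_rev, cx_mul]
      calc cx g * cx h * !![0, 0; 0, 1] * (cx h⁻¹ * cx (g : SL(2, ℝ))⁻¹) * cx g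
          = cx g * (cx h * !![0, 0; 0, 1] * cx h⁻¹) * (cx (g : SL(2, ℝ))⁻¹ * cx g) := by
            simp only [mul_assoc]
        _ = _ := by rw [cx_inv_mul, mul_one]
    · ring
  · intro c _ t
    obtain ⟨h, rfl⟩ := exists_geod c
    rw [flow_geod, PP_geod, PP_geod]
    congr 1
    rw [cx_mul, mul_inv_rev, cx_mul]
    calc cx h * cx (dA t) * !![0, 0; 0, 1] * (cx (dA t)⁻¹ * cx h⁻¹)
        = cx h * (cx (dA t) * !![0, 0; 0, 1] * cx (dA t)⁻¹) * cx h⁻¹ := by simp only [mul_assoc]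
      _ = _ := by rw [hcomm]
  · apply Continuous.continuousOn
    apply continuous_of_geod (f := fun p : UT × (Fin (2 * m + n) → ℂ) => NN m n p.1 p.2)
    have h2 : (fun p : SL(2, ℝ) × (Fin (2 * m + n) → ℂ) => NN m n (geod p.1) p.2) =
        fun p => ‖BM m n (cx p.1⁻¹) 1 *ᵥ p.2‖ := funext fun p => NN_geod p.1 p.2
    rw [h2]
    apply Continuous.norm
    exact (continuous_BM (continuous_cx.comp (continuous_inv.comp continuous_fst))
      continuous_const).matrix_mulVec continuous_snd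
  · intro c _ v hv
    obtain ⟨h, rfl⟩ := exists_geod c
    rw [NN_geod, norm_eq_zero] at hv
    have e : v = BM m n (cx h) 1 *ᵥ (BM m n (cx h⁻¹) 1 *ᵥ v) := by
      rw [Matrix.mulVec_mulVec, BM_mul, cx_mul_inv, one_mul, BM_one, Matrix.one_mulVec]
    rw [e, hv, Matrix.mulVec_zero]
  · intro c _ g v
    obtain ⟨h, rfl⟩ := exists_geod c
    rw [act_geod, NN_geod, NN_geod, exRep_apply, RM_coe, Matrix.mulVec_mulVec, BM_mul, ← cx_mul]
    congr 3
    · congr 1; group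
    · ring
  · intro c _ v w hv hw t ht
    obtain ⟨h, rfl⟩ := exists_geod c
    rw [flow_geod, NN_geod, NN_geod, NN_geod, NN_geod]
    rw [PP_geod] at hv hw
    set x := BM m n (cx h⁻¹) 1 *ᵥ v with hx
    set y := BM m n (cx h⁻¹) 1 *ᵥ w with hy
    have hxE : BM m n !![0, 0; 0, 1] 0 *ᵥ x = x := by
      have e : BM m n !![0, 0; 0, 1] 0 * BM m n (cx h⁻¹) 1 =
          BM m n (cx h⁻¹) 1 * BM m n (cx h * !![0, 0; 0, 1] * cx h⁻¹) 0 := by
        rw [BM_mul, BM_mul, zero_mul, mul_zero]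
        congr 1
        rw [← mul_assoc, ← mul_assoc, cx_inv_mul, one_mul]
      rw [hx, Matrix.mulVec_mulVec, e, ← Matrix.mulVec_mulVec, hv]
    have hyE : BM m n !![0, 0; 0, 1] 0 *ᵥ y = 0 := by
      have e : BM m n !![0, 0; 0, 1] 0 * BM m n (cx h⁻¹) 1 =
          BM m n (cx h⁻¹) 1 * BM m n (cx h * !![0, 0; 0, 1] * cx h⁻¹) 0 := by
        rw [BM_mul, BM_mul, zero_mul, mul_zero]
        congr 1
        rw [← mul_assoc, ← mul_assoc, cx_inv_mul, one_mul]
      rw [hy, Matrix.mulVec_mulVec, e, ← Matrix.mulVec_mulVec, hw, Matrix.mulVec_zero]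
    have hfl : ∀ u : Fin (2 * m + n) → ℂ, BM m n (cx (h * dA t)⁻¹) 1 *ᵥ u =
        BM m n !![(Real.exp (-(t / 2)) : ℂ), 0; 0, (Real.exp (t / 2) : ℂ)] 1 *ᵥ
          (BM m n (cx h⁻¹) 1 *ᵥ u) := by
      intro u
      rw [Matrix.mulVec_mulVec, BM_mul, mul_inv_rev, cx_mul, cx_dA_inv, mul_one]
    rw [hfl, hfl, ← hx, ← hy]
    -- the unstable part is expanded
    have h1 : ‖BM m n !![(Real.exp (-(t / 2)) : ℂ), 0; 0, (Real.exp (t / 2) : ℂ)] 1 *ᵥ x‖ =
        Real.exp (t / 2) * ‖x‖ := by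
      have e : BM m n !![(Real.exp (-(t / 2)) : ℂ), 0; 0, (Real.exp (t / 2) : ℂ)] 1 *ᵥ x =
          (Real.exp (t / 2) : ℂ) • x := by
        conv_lhs => rw [← hxE]
        rw [Matrix.mulVec_mulVec, BM_mul, mul_zero]
        have e2 : (!![(Real.exp (-(t / 2)) : ℂ), 0; 0, (Real.exp (t / 2) : ℂ)] * !![0, 0; 0, 1] :
            Matrix (Fin 2) (Fin 2) ℂ) = (Real.exp (t / 2) : ℂ) • !![0, 0; 0, 1] := by
          ext i j
          fin_cases i <;> fin_cases j <;> simp
        have e3 := BM_smul (m := m) (n := n) (Real.exp (t / 2) : ℂ) !![0, 0; 0, 1] 0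
        rw [mul_zero] at e3
        rw [e2, ← e3, Matrix.smul_mulVec, hxE]
      rw [e, norm_smul, Complex.norm_real, Real.norm_eq_abs, abs_of_pos (Real.exp_pos _)]
    -- the stable part is contracted
    have h2 : ‖BM m n !![(Real.exp (-(t / 2)) : ℂ), 0; 0, (Real.exp (t / 2) : ℂ)] 1 *ᵥ y‖ ≤ ‖y‖ := by
      have e : BM m n !![(Real.exp (-(t / 2)) : ℂ), 0; 0, (Real.exp (t / 2) : ℂ)] 1 *ᵥ y =
          BM m n !![(Real.exp (-(t / 2)) : ℂ), 0; 0, 1] 1 *ᵥ y := by
        have e2 : BM m n !![(Real.exp (-(t / 2)) : ℂ), 0; 0, (Real.exp (t / 2) : ℂ)] 1 =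
            BM m n !![(Real.exp (-(t / 2)) : ℂ), 0; 0, 1] 1 +
              ((Real.exp (t / 2) : ℂ) - 1) • BM m n !![0, 0; 0, 1] 0 := by
          rw [BM_smul, BM_add, mul_zero, add_zero]
          congr 1
          ext i j
          fin_cases i <;> fin_cases j <;> simp
        rw [e2, Matrix.add_mulVec, Matrix.smul_mulVec, hyE, smul_zero, add_zero]
      rw [e, BM_diag, pi_norm_le_iff_of_nonneg (norm_nonneg _)]
      intro i
      rw [Matrix.mulVec_diagonal, norm_mul]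
      have h3 : ‖wt (m := m) (n := n) (Real.exp (-(t / 2)) : ℂ) 1 1 ((enum m n).symm i)‖ ≤ 1 := by
        have h4 : Real.exp (-(t / 2)) ≤ 1 := Real.exp_le_one_iff.2 (by linarith)
        rcases (enum m n).symm i with ⟨i', a⟩ | i'
        · fin_cases i'
          · simp only [wt, Fin.zero_eta, if_true]
            rw [Complex.norm_real, Real.norm_eq_abs, abs_of_pos (Real.exp_pos _)]
            exact h4
          · simp [wt]
        · simp [wt]
      have h5 := norm_le_pi_norm y i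
      calc _ ≤ 1 * ‖y‖ := mul_le_mul h3 h5 (norm_nonneg _) zero_le_one
        _ = ‖y‖ := one_mul _
    rw [h1, one_mul]
    have h6 : Real.exp (-(1 / 2) * t) * (Real.exp (t / 2) * ‖x‖ * ‖y‖) = ‖y‖ * ‖x‖ := by
      have : Real.exp (-(1 / 2) * t) * Real.exp (t / 2) = 1 := by
        rw [← Real.exp_add]
        have : -(1 / 2) * t + t / 2 = 0 := by ring
        rw [this, Real.exp_zero]
      calc _ = (Real.exp (-(1 / 2) * t) * Real.exp (t / 2)) * (‖y‖ * ‖x‖) := by ring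
        _ = _ := by rw [this, one_mul]
    rw [h6]
    exact mul_le_mul_of_nonneg_right h2 (norm_nonneg _)

end Pool.Agent.Q138.SA
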