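import Pool.Agent.Q138.SA.OutFin2

/-!
# Compactness of the unit tangent bundle, invariance of simple closed geodesics
-/

set_option autoImplicit false

open scoped MatrixGroups UpperHalfPlane Matrix Topology
open UpperHalfPlane

namespace Pool.Agent.Q138.SA

open Pool.Agent.Y473.SA

variable {Γ : Subgroup SL(2, ℝ)} {d k : ℕ}

theorem simpleClosed_flow {c : UT} {l : ℝ} (h : IsSimpleClosed Γ c l) (t : ℝ) :
    IsSimpleClosed Γ (flow t c) l := by
  obtain ⟨h1, ⟨g, hg⟩, h3⟩ := h
  refine ⟨h1, ⟨g, ?_⟩, ?_⟩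
  · rw [act_flow, hg, flow_flow, flow_flow, add_comm]
  · intro g s t' hst
    obtain ⟨n, hn⟩ := h3 g (s + t) (t' + t) hst
    exact ⟨n, by linarith⟩

theorem simpleClosed_act {c : UT} {l : ℝ} (h : IsSimpleClosed Γ c l) (g : Γ) :
    IsSimpleClosed Γ (act g c) l := by
  obtain ⟨h1, ⟨g', hg'⟩, h3⟩ := h
  refine ⟨h1, ⟨g * g' * g⁻¹, ?_⟩, ?_⟩
  · rw [act_act, inv_mul_cancel_right, ← act_act, hg', act_flow]
  · intro x s t hst
    rw [act_apply, act_apply] at hst
    apply h3 (g⁻¹ * x * g)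
    rw [mul_smul, mul_smul, hst, inv_smul_smul]

theorem mem_birmanSeries {c : UT} {l : ℝ} (h : IsSimpleClosed Γ c l) : c ∈ birmanSeries Γ :=
  subset_closure ⟨l, h⟩

theorem isCompact_ball (r : ℝ) : IsCompact {c : UT | dist I (c.1 0) ≤ r} := by
  have hcl : IsClosed {c : ℝ → ℍ | Isometry c} := by
    have : {c : ℝ → ℍ | Isometry c} = ⋂ (s : ℝ) (t : ℝ), {c | dist (c s) (c t) = dist s t} := by
      ext c
      simp only [Set.mem_ofPred_eq, Set.mem_iInter]
      exact isometry_iff_dist_eq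
    rw [this]
    refine isClosed_iInter fun s => isClosed_iInter fun t => ?_
    exact isClosed_eq ((continuous_apply s).dist (continuous_apply t)) continuous_const
  have hemb : Topology.IsClosedEmbedding (Subtype.val : UT → (ℝ → ℍ)) :=
    hcl.isClosedEmbedding_subtypeVal
  have hc : IsCompact (Set.pi Set.univ fun t : ℝ => Metric.closedBall I (r + |t|)) :=
    isCompact_univ_pi fun t => isCompact_closedBall I (r + |t|)
  have h1 := hemb.isCompact_preimage hc
  refine h1.of_isClosed_subset ?_ ?_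
  · exact isClosed_le (continuous_const.dist ((continuous_apply 0).comp continuous_subtype_val))
      continuous_const
  · intro c hc t _
    rw [Metric.mem_closedBall, dist_comm]
    have h2 := dist_triangle I (c.1 0) (c.1 t)
    rw [line_dist, zero_sub, abs_neg] at h2
    have h3 : dist I (c.1 0) ≤ r := hc
    linarith

theorem isCompact_Y (r : ℝ) : IsCompact {c : UT | c ∈ birmanSeries Γ ∧ dist I (c.1 0) ≤ r} := by
  have : {c : UT | c ∈ birmanSeries Γ ∧ dist I (c.1 0) ≤ r} =
      {c : UT | dist I (c.1 0) ≤ r} ∩ birmanSeries Γ := by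
    ext c; exact and_comm
  rw [this]
  exact (isCompact_ball r).inter_right isClosed_closure

/-- The finitely many return elements. -/
theorem finite_return (hΓ : IsClosedSurface Γ) (r T : ℝ) :
    {h : Γ | ∃ c : UT, ∃ t : ℝ, 0 ≤ t ∧ t ≤ T ∧ dist I (c.1 0) ≤ r ∧
      dist I ((act h (flow t c)).1 0) ≤ r}.Finite := by
  refine (hΓ.finite_ball (r + |T|)).subset ?_
  rintro h ⟨c, t, h0, hT, h1, h2⟩
  refine ⟨c.1 t, ?_, ?_⟩
  · have h3 := dist_triangle I (c.1 0) (c.1 t)
    rw [line_dist, zero_sub, abs_neg, abs_of_nonneg h0] at h3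
    have := le_abs_self T
    linarith
  · rw [act_apply, flow_apply, zero_add] at h2
    have := abs_nonneg T
    linarith

/-- The length and the trace. -/
theorem trace_of_axis {g : Γ} {c : UT} {l : ℝ} (h : act g c = flow l c) :
    |tr g| = 2 * Real.cosh (l / 2) := by
  obtain ⟨p, rfl⟩ := exists_geod c
  obtain ⟨lam, h1, h00, h11, -, -⟩ := diag_of_axis h
  have htr : tr g = lam + lam⁻¹ := by rw [← tr_conj p, tr_eq, h00, h11]
  have h0 : lam ≠ 0 := by
    rintro rfl
    rw [zero_pow two_ne_zero] at h1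
    exact (Real.exp_pos _).ne h1
  have e1 : Real.exp (l / 2) * Real.exp (l / 2) = Real.exp l := by rw [← Real.exp_add, add_halves]
  have e2 : Real.exp (-(l / 2)) * Real.exp (-(l / 2)) = (Real.exp l)⁻¹ := by
    rw [← Real.exp_add, ← Real.exp_neg]; congr 1; ring
  have e3 : Real.exp (l / 2) * Real.exp (-(l / 2)) = 1 := by rw [← Real.exp_add]; simp
  have e4 : lam⁻¹ ^ 2 = (Real.exp l)⁻¹ := by rw [inv_pow, h1]
  have e5 : lam * lam⁻¹ = 1 := mul_inv_cancel₀ h0
  have e6 : (tr g) ^ 2 = (2 * Real.cosh (l / 2)) ^ 2 := by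
    rw [htr, Real.cosh_eq]
    nlinarith
  have e7 := (sq_eq_sq_iff_abs_eq_abs _ _).1 e6
  rw [e7, abs_of_pos]
  have := Real.cosh_pos (l / 2)
  linarith

end Pool.Agent.Q138.SA
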