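import Mathlib

/-!
# A conjugation invariant size of a matrix
-/

set_option autoImplicit false

open Matrix

namespace Pool.Agent.Q138.SA

variable {d : ℕ}

/-- The size of a complex matrix: the sum of the absolute values of the coefficients of its
characteristic polynomial. -/
noncomputable def size (M : Matrix (Fin d) (Fin d) ℂ) : ℝ :=
  ∑ i ∈ Finset.range d, ‖M.charpoly.coeff i‖

theorem size_nonneg (M : Matrix (Fin d) (Fin d) ℂ) : 0 ≤ size M :=
  Finset.sum_nonneg fun _ _ => norm_nonneg _

theorem charpoly_conj {M H H' : Matrix (Fin d) (Fin d) ℂ} (h : H * H' = 1) :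
    (H * M * H').charpoly = M.charpoly := by
  have h' : H' * H = 1 := mul_eq_one_comm.1 h
  rw [mul_assoc, Matrix.charpoly_mul_comm, mul_assoc, h', mul_one]

theorem size_conj {M H H' : Matrix (Fin d) (Fin d) ℂ} (h : H * H' = 1) :
    size (H * M * H') = size M := by
  rw [size, size, charpoly_conj h]

theorem continuous_size : Continuous (size : Matrix (Fin d) (Fin d) ℂ → ℝ) := by
  apply continuous_finsetSum
  intro i _
  apply Continuous.norm
  have h : ∀ M : Matrix (Fin d) (Fin d) ℂ, M.charpoly.coeff i =
      MvPolynomial.eval (fun p : Fin d × Fin d => M p.1 p.2)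
        ((Matrix.charpoly.univ ℂ (Fin d)).coeff i) := by
    intro M
    have h1 := Matrix.charpoly.univ_coeff_eval₂Hom (Fin d) (RingHom.id ℂ)
      (fun p : Fin d × Fin d => M p.1 p.2) i
    exact h1.symm
  simp_rw [h]
  apply (MvPolynomial.continuous_eval _).comp
  fun_prop

/-- The growth of the orbits of a vector. -/
theorem growth (M : Matrix (Fin d) (Fin d) ℂ) (v : Fin d → ℂ) :
    ∃ C : ℝ, 0 ≤ C ∧ ∀ n : ℕ, ‖(M ^ n) *ᵥ v‖ ≤ C * (max 1 (size M)) ^ n := by
  set B := max 1 (size M) with hB
  have hB1 : 1 ≤ B := le_max_left _ _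
  have hB0 : 0 ≤ B := by linarith
  set C := ∑ i ∈ Finset.range d, ‖(M ^ i) *ᵥ v‖ with hC
  have hC0 : 0 ≤ C := Finset.sum_nonneg fun _ _ => norm_nonneg _
  refine ⟨C, hC0, ?_⟩
  intro n
  induction n using Nat.strong_induction_on with
  | _ n ih =>
    rcases lt_or_ge n d with hn | hn
    · have h1 : ‖(M ^ n) *ᵥ v‖ ≤ C :=
        Finset.single_le_sum (f := fun i => ‖(M ^ i) *ᵥ v‖) (fun _ _ => norm_nonneg _)
          (Finset.mem_range.2 hn)
      exact h1.trans (le_mul_of_one_le_right hC0 (one_le_pow₀ hB1))
    · rcases Nat.eq_zero_or_pos d with hd | hd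
      · subst hd
        have : (M ^ n) *ᵥ v = 0 := Subsingleton.elim _ _
        rw [this, norm_zero]
        positivity
      have hCH := Matrix.aeval_self_charpoly M
      have hmonic := Matrix.charpoly_monic M
      have hdeg : M.charpoly.natDegree = d := by
        rw [Matrix.charpoly_natDegree_eq_dim, Fintype.card_fin]
      have e1 : M ^ d = - ∑ i ∈ Finset.range d, M.charpoly.coeff i • M ^ i := by
        rw [Polynomial.aeval_eq_sum_range, hdeg, Finset.sum_range_succ] at hCH
        have h2 : M.charpoly.coeff d = 1 := by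
          have h3 := hmonic.coeff_natDegree
          rwa [hdeg] at h3
        rw [h2, one_smul] at hCH
        exact eq_neg_of_add_eq_zero_right hCH
      have e2 : (M ^ n) *ᵥ v = - ∑ i ∈ Finset.range d, M.charpoly.coeff i • ((M ^ (n - d + i)) *ᵥ v) := by
        have : M ^ n = M ^ (n - d) * M ^ d := by rw [← pow_add]; congr 1; omega
        rw [this, e1, mul_neg, Finset.mul_sum, Matrix.neg_mulVec, Matrix.sum_mulVec]
        congr 1
        apply Finset.sum_congr rfl
        intro i _
        rw [Matrix.mul_smul, Matrix.smul_mulVec, ← pow_add]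
      rw [e2, norm_neg]
      calc ‖∑ i ∈ Finset.range d, M.charpoly.coeff i • ((M ^ (n - d + i)) *ᵥ v)‖
          ≤ ∑ i ∈ Finset.range d, ‖M.charpoly.coeff i‖ * (C * B ^ (n - 1)) := by
            refine (norm_sum_le _ _).trans (Finset.sum_le_sum fun i hi => ?_)
            rw [norm_smul]
            apply mul_le_mul_of_nonneg_left _ (norm_nonneg _)
            have hi' := Finset.mem_range.1 hi
            refine (ih (n - d + i) (by omega)).trans ?_
            exact mul_le_mul_of_nonneg_left (pow_le_pow_right₀ hB1 (by omega)) hC0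
        _ = size M * (C * B ^ (n - 1)) := by rw [← Finset.sum_mul]; rfl
        _ ≤ B * (C * B ^ (n - 1)) := mul_le_mul_of_nonneg_right (le_max_right _ _) (by positivity)
        _ = C * B ^ n := by
            have : B ^ n = B * B ^ (n - 1) := by rw [← pow_succ']; congr 1; omega
            rw [this]; ring

end Pool.Agent.Q138.SA
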