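import Pool.Agent.Q138.SA.ExAnosov

/-!
# The example is not simple `k`-Anosov for `k ≠ m, m + n`
-/

set_option autoImplicit false

open scoped MatrixGroups UpperHalfPlane Matrix Topology Kronecker
open UpperHalfPlane

namespace Pool.Agent.Q138.SA

open Pool.Agent.Y473.SA

variable {Γ : Subgroup SL(2, ℝ)} {m n d k : ℕ}

/-- Domination of the eigenvalues of a simple element. -/
theorem eig_dom {σ : Rep Γ d} {P : UT → Matrix (Fin d) (Fin d) ℂ}
    {N : UT → Seminorm ℂ (Fin d → ℂ)} {C a : ℝ} (hC : 0 < C) (ha : 0 < a)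
    (hN0 : ∀ c ∈ birmanSeries Γ, ∀ v, N c v = 0 → v = 0)
    (hNeq : ∀ c ∈ birmanSeries Γ, ∀ (g : Γ) v, N (act g c) ((σ.1 g).1 *ᵥ v) = N c v)
    (hdom : ∀ c ∈ birmanSeries Γ, ∀ v w, P c *ᵥ v = v → P c *ᵥ w = 0 → ∀ t, 0 ≤ t →
      N (flow t c) w * N c v ≤ C * Real.exp (-a * t) * (N (flow t c) v * N c w))
    {g : Γ} {c : UT} {l : ℝ} (hc : IsSimpleClosed Γ c l) (hg : act g c = flow l c)
    {v w : Fin d → ℂ} {μ ν : ℂ} (hv : P c *ᵥ v = v) (hw : P c *ᵥ w = 0) (hv0 : v ≠ 0) (hw0 : w ≠ 0)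
    (hμ : ((σ.1 g)⁻¹).1 *ᵥ v = μ • v) (hν : ((σ.1 g)⁻¹).1 *ᵥ w = ν • w) (hμ0 : μ ≠ 0) :
    ‖ν‖ < ‖μ‖ := by
  have hcb := mem_birmanSeries hc
  have hl := hc.1
  have hNv : 0 < N c v := lt_of_le_of_ne (apply_nonneg _ _) fun h => hv0 (hN0 _ hcb _ h.symm)
  have hNw : 0 < N c w := lt_of_le_of_ne (apply_nonneg _ _) fun h => hw0 (hN0 _ hcb _ h.symm)
  have hpow : ∀ (x : Fin d → ℂ) (θ : ℂ), ((σ.1 g)⁻¹).1 *ᵥ x = θ • x → ∀ q : ℕ,
      N (flow (q * l) c) x = ‖θ‖ ^ q * N c x := by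
    intro x θ hx q
    have h1 : ∀ q : ℕ, (((σ.1 g)⁻¹) ^ q).1 *ᵥ x = θ ^ q • x := by
      intro q
      induction q with
      | zero => simp
      | succ q ih =>
        rw [pow_succ', Matrix.SpecialLinearGroup.coe_mul, ← Matrix.mulVec_mulVec, ih,
          Matrix.mulVec_smul, hx, smul_smul, pow_succ]
    have h2 : act (g ^ q) c = flow (q * l) c := by
      have := zpow_axis hg q
      rwa [zpow_natCast] at this
    have h3 := hNeq c hcb (g ^ q) ((((σ.1 g)⁻¹) ^ q).1 *ᵥ x)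
    rw [h2, Matrix.mulVec_mulVec, rep_pow, ← Matrix.SpecialLinearGroup.coe_mul, inv_pow,
      mul_inv_cancel, Matrix.SpecialLinearGroup.coe_one, Matrix.one_mulVec, ← inv_pow, h1,
      map_smul_eq_mul, norm_pow] at h3
    exact h3
  have h4 : ‖ν‖ ≤ Real.exp (-a * l) * ‖μ‖ := by
    have hμ' : 0 < ‖μ‖ := norm_pos_iff.2 hμ0
    apply le_of_pow_le (δ := N c w * N c v) (K := C * (N c v * N c w)) (by positivity) (by positivity)
    intro q
    have h5 := hdom c hcb v w hv hw (q * l) (by positivity)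
    rw [hpow v μ hμ, hpow w ν hν] at h5
    have h6 : Real.exp (-a * (q * l)) = Real.exp (-a * l) ^ q := by
      rw [← Real.exp_nat_mul]; congr 1; ring
    rw [h6] at h5
    calc ‖ν‖ ^ q * (N c w * N c v) = ‖ν‖ ^ q * N c w * N c v := by ring
      _ ≤ _ := h5
      _ = C * (N c v * N c w) * (Real.exp (-a * l) * ‖μ‖) ^ q := by rw [mul_pow]; ring
  have h5 : Real.exp (-a * l) < 1 := by
    rw [Real.exp_lt_one_iff]
    nlinarith
  have hμ' : 0 < ‖μ‖ := norm_pos_iff.2 hμ0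
  nlinarith

theorem exists_mulVec_ne {A : Matrix (Fin d) (Fin d) ℂ} (h : A ≠ 0) : ∃ v : Fin d → ℂ, A *ᵥ v ≠ 0 := by
  by_contra hcon
  push Not at hcon
  apply h
  rw [← Matrix.toLin'.map_eq_zero_iff]
  apply LinearMap.ext
  intro v
  rw [Matrix.toLin'_apply, LinearMap.zero_apply]
  exact hcon v

/-- The spectral projections as polynomials. -/
theorem E1_poly {lam : ℂ} (h1 : lam ≠ 1) (h2 : lam ≠ lam⁻¹) :
    BM m n !![1, 0; 0, 0] 0 = ((lam - 1) * (lam - lam⁻¹))⁻¹ •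
      ((BM m n !![lam, 0; 0, lam⁻¹] 1 + (-1 : ℂ) • 1) *
        (BM m n !![lam, 0; 0, lam⁻¹] 1 + (-lam⁻¹ : ℂ) • 1)) := by
  have hne : (lam - 1) * (lam - lam⁻¹) ≠ 0 := mul_ne_zero (sub_ne_zero.2 h1) (sub_ne_zero.2 h2)
  rw [← BM_one (m := m) (n := n), BM_smul, BM_smul, BM_add, BM_add, BM_mul, BM_smul]
  congr 1
  · ext i j
    rw [Matrix.smul_apply, Matrix.mul_apply, Fin.sum_univ_two]
    fin_cases i <;> fin_cases j
    · have e : (1 : ℂ) = ((lam - 1) * (lam - lam⁻¹))⁻¹ * ((lam + -1) * (lam + -lam⁻¹)) := by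
        rw [← sub_eq_add_neg, ← sub_eq_add_neg, inv_mul_cancel₀ hne]
      simpa using e
    · simp
    · simp
    · simp
  · ring

theorem E2_poly {lam : ℂ} (h1 : lam ≠ 1) (h2 : lam ≠ lam⁻¹) :
    BM m n !![0, 0; 0, 1] 0 = ((lam⁻¹ - 1) * (lam⁻¹ - lam))⁻¹ •
      ((BM m n !![lam, 0; 0, lam⁻¹] 1 + (-1 : ℂ) • 1) *
        (BM m n !![lam, 0; 0, lam⁻¹] 1 + (-lam : ℂ) • 1)) := by
  have hl1 : lam⁻¹ ≠ 1 := fun h => h1 (inv_eq_one.1 h)
  have hne : (lam⁻¹ - 1) * (lam⁻¹ - lam) ≠ 0 :=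
    mul_ne_zero (sub_ne_zero.2 hl1) (sub_ne_zero.2 h2.symm)
  rw [← BM_one (m := m) (n := n), BM_smul, BM_smul, BM_add, BM_add, BM_mul, BM_smul]
  congr 1
  · ext i j
    rw [Matrix.smul_apply, Matrix.mul_apply, Fin.sum_univ_two]
    fin_cases i <;> fin_cases j
    · simp
    · simp
    · simp
    · have e : (1 : ℂ) = ((lam⁻¹ - 1) * (lam⁻¹ - lam))⁻¹ * ((lam⁻¹ + -1) * (lam⁻¹ + -lam)) := by
        rw [← sub_eq_add_neg, ← sub_eq_add_neg, inv_mul_cancel₀ hne]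
      simpa using e
  · ring

theorem E_sum : BM m n !![1, 0; 0, 0] 0 + (BM m n !![0, 0; 0, 1] 0 + BM m n !![0, 0; 0, 0] 1) = 1 := by
  rw [BM_add, BM_add, ← BM_one]
  congr 1
  · ext i j
    fin_cases i <;> fin_cases j <;> simp
  · ring

/-- The linear algebra. -/
theorem no_rank {lam : ℂ} (h0 : lam ≠ 0) (h1 : lam ≠ 1) (h2 : lam ≠ lam⁻¹)
    {Q : Matrix (Fin (2 * m + n)) (Fin (2 * m + n)) ℂ} (hQQ : Q * Q = Q)
    (hQD : Q * BM m n !![lam, 0; 0, lam⁻¹] 1 = BM m n !![lam, 0; 0, lam⁻¹] 1 * Q)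
    (hdom : ∀ (E E' : Matrix (Fin (2 * m + n)) (Fin (2 * m + n)) ℂ) (μ ν : ℂ), μ ≠ 0 →
      BM m n !![lam⁻¹, 0; 0, lam] 1 * E = μ • E → BM m n !![lam⁻¹, 0; 0, lam] 1 * E' = ν • E' →
      Q * E ≠ 0 → (1 - Q) * E' ≠ 0 → ‖ν‖ < ‖μ‖) (hk : 1 ≤ Q.rank) (hkd : Q.rank < 2 * m + n)
    (hkm : Q.rank ≠ m) (hkmn : Q.rank ≠ m + n) : False := by
  have hcomm : ∀ x y z : ℂ, Commute Q (x • ((BM m n !![lam, 0; 0, lam⁻¹] 1 + y • 1) *
      (BM m n !![lam, 0; 0, lam⁻¹] 1 + z • 1))) := by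
    intro x y z
    have h1 : Commute Q (BM m n !![lam, 0; 0, lam⁻¹] 1) := hQD
    have h2 : ∀ t : ℂ, Commute Q (t • (1 : Matrix (Fin (2 * m + n)) (Fin (2 * m + n)) ℂ)) := fun t =>
      (Commute.one_right Q).smul_right t
    exact ((h1.add_right (h2 y)).mul_right (h1.add_right (h2 z))).smul_right x
  have hc1 : Commute Q (BM m n !![1, 0; 0, 0] 0) := by rw [E1_poly h1 h2]; exact hcomm _ _ _
  have hc2 : Commute Q (BM m n !![0, 0; 0, 1] 0) := by rw [E2_poly h1 h2]; exact hcomm _ _ _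
  have hd1 : BM m n !![lam⁻¹, 0; 0, lam] 1 * BM m n !![1, 0; 0, 0] 0 =
      lam⁻¹ • BM m n !![1, 0; 0, 0] 0 := by
    rw [BM_mul, BM_smul, mul_zero, mul_zero]
    congr 1
    ext i j
    fin_cases i <;> fin_cases j <;> simp
  have hd2 : BM m n !![lam⁻¹, 0; 0, lam] 1 * BM m n !![0, 0; 0, 1] 0 =
      lam • BM m n !![0, 0; 0, 1] 0 := by
    rw [BM_mul, BM_smul, mul_zero, mul_zero]
    congr 1
    ext i j
    fin_cases i <;> fin_cases j <;> simp
  have hd3 : BM m n !![lam⁻¹, 0; 0, lam] 1 * BM m n !![0, 0; 0, 0] 1 =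
      (1 : ℂ) • BM m n !![0, 0; 0, 0] 1 := by
    rw [BM_mul, BM_smul, mul_one]
    congr 1
    ext i j
    fin_cases i <;> fin_cases j <;> simp
  have hl0 : lam⁻¹ ≠ 0 := inv_ne_zero h0
  -- each eigenspace is in the image or in the kernel
  have hsplit : ∀ (E : Matrix (Fin (2 * m + n)) (Fin (2 * m + n)) ℂ) (μ : ℂ), μ ≠ 0 →
      BM m n !![lam⁻¹, 0; 0, lam] 1 * E = μ • E → Q * E = 0 ∨ Q * E = E := by
    intro E μ hμ hE
    by_contra hcon
    push Not at hcon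
    have h3 : (1 - Q) * E ≠ 0 := by
      rw [sub_mul, one_mul, sub_ne_zero]
      exact fun h => hcon.2 h.symm
    exact lt_irrefl _ (hdom E E μ μ hμ hE hE hcon.1 h3)
  have hQ : Q = Q * BM m n !![1, 0; 0, 0] 0 + (Q * BM m n !![0, 0; 0, 1] 0 +
      Q * BM m n !![0, 0; 0, 0] 1) := by
    rw [← mul_add, ← mul_add, E_sum, mul_one]
  have hnorm : ‖lam‖ * ‖lam⁻¹‖ = 1 := by rw [← norm_mul, mul_inv_cancel₀ h0, norm_one]
  have hn0 : 0 ≤ ‖lam‖ := norm_nonneg _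
  have hn1 : 0 ≤ ‖lam⁻¹‖ := norm_nonneg _
  -- nonvanishing of the projections
  have hne1 : 0 < m → BM m n !![1, 0; 0, 0] 0 ≠ 0 := by
    intro hm h
    have := rank_BM_diag (m := m) (n := n) 1 0 0
    rw [h, Matrix.rank_zero] at this
    simp at this
    omega
  have hne2 : 0 < m → BM m n !![0, 0; 0, 1] 0 ≠ 0 := by
    intro hm h
    have := rank_BM_diag (m := m) (n := n) 0 1 0
    rw [h, Matrix.rank_zero] at this
    simp at this
    omega
  have hne3 : 0 < n → BM m n !![0, 0; 0, 0] 1 ≠ 0 := by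
    intro hn h
    have := rank_BM_diag (m := m) (n := n) 0 0 1
    rw [h, Matrix.rank_zero] at this
    simp at this
    omega
  have hQker : ∀ {E : Matrix (Fin (2 * m + n)) (Fin (2 * m + n)) ℂ}, Q * E = 0 → E ≠ 0 →
      (1 - Q) * E ≠ 0 := by
    intro E h h'
    rwa [sub_mul, one_mul, h, sub_zero]
  have hQim : ∀ {E : Matrix (Fin (2 * m + n)) (Fin (2 * m + n)) ℂ}, Q * E = E → E ≠ 0 →
      Q * E ≠ 0 := by
    intro E h h'
    rwa [h]
  rcases hsplit _ _ hl0 hd1 with e1 | e1 <;> rcases hsplit _ _ h0 hd2 with e2 | e2 <;>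
    rcases hsplit _ _ one_ne_zero hd3 with e3 | e3
  · -- 000
    rw [e1, e2, e3, add_zero, add_zero] at hQ
    rw [hQ, Matrix.rank_zero] at hk
    omega
  · -- 001
    have hr : Q.rank = n := by
      rw [hQ, e1, e2, e3, zero_add, zero_add, rank_BM_diag]
      simp
    have hm : 0 < m := by
      rcases Nat.eq_zero_or_pos m with h | h
      · subst h; omega
      · exact h
    have hn : 0 < n := by omega
    have f1 := hdom _ _ _ _ one_ne_zero hd3 hd1 (hQim e3 (hne3 hn)) (hQker e1 (hne1 hm))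
    have f2 := hdom _ _ _ _ one_ne_zero hd3 hd2 (hQim e3 (hne3 hn)) (hQker e2 (hne2 hm))
    rw [norm_one] at f1 f2
    nlinarith
  · -- 010
    apply hkm
    rw [hQ, e1, e2, e3, zero_add, add_zero, rank_BM_diag]
    simp
  · -- 011
    apply hkmn
    rw [hQ, e1, e2, e3, zero_add, BM_add]
    have e : (!![0, 0; 0, 1] + !![0, 0; 0, 0] : Matrix (Fin 2) (Fin 2) ℂ) = !![0, 0; 0, 1] := by
      ext i j
      fin_cases i <;> fin_cases j <;> simp
    rw [e, zero_add, rank_BM_diag]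
    simp
  · -- 100
    apply hkm
    rw [hQ, e1, e2, e3, add_zero, add_zero, rank_BM_diag]
    simp
  · -- 101
    apply hkmn
    rw [hQ, e1, e2, e3, zero_add, BM_add]
    have e : (!![1, 0; 0, 0] + !![0, 0; 0, 0] : Matrix (Fin 2) (Fin 2) ℂ) = !![1, 0; 0, 0] := by
      ext i j
      fin_cases i <;> fin_cases j <;> simp
    rw [e, zero_add, rank_BM_diag]
    simp
  · -- 110
    have hr : Q.rank = 2 * m := by
      rw [hQ, e1, e2, e3, add_zero, BM_add]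
      have e : (!![1, 0; 0, 0] + !![0, 0; 0, 1] : Matrix (Fin 2) (Fin 2) ℂ) = !![1, 0; 0, 1] := by
        ext i j
        fin_cases i <;> fin_cases j <;> simp
      rw [e, zero_add, rank_BM_diag]
      simp
      ring
    have hn : 0 < n := by omega
    have hm : 0 < m := by omega
    have f1 := hdom _ _ _ _ hl0 hd1 hd3 (hQim e1 (hne1 hm)) (hQker e3 (hne3 hn))
    have f2 := hdom _ _ _ _ h0 hd2 hd3 (hQim e2 (hne2 hm)) (hQker e3 (hne3 hn))
    rw [norm_one] at f1 f2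
    nlinarith
  · -- 111
    rw [e1, e2, e3, E_sum] at hQ
    rw [hQ, Matrix.rank_one, Fintype.card_fin] at hkd
    omega

end Pool.Agent.Q138.SA
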