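import Pool.Agent.Q138.SA.NotK

/-!
# The example is not simple `k`-Anosov for `k ≠ m, m + n`: conclusion
-/

set_option autoImplicit false

open scoped MatrixGroups UpperHalfPlane Matrix Topology Kronecker
open UpperHalfPlane

namespace Pool.Agent.Q138.SA

open Pool.Agent.Y473.SA

variable {Γ : Subgroup SL(2, ℝ)} {m n d k : ℕ}

theorem sl_coe_inv_mul (Z : SL(d, ℂ)) : (Z⁻¹).1 * Z.1 = 1 := by
  rw [← Matrix.SpecialLinearGroup.coe_mul, inv_mul_cancel, Matrix.SpecialLinearGroup.coe_one]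

theorem sl_coe_mul_inv (Z : SL(d, ℂ)) : Z.1 * (Z⁻¹).1 = 1 := by
  rw [← Matrix.SpecialLinearGroup.coe_mul, mul_inv_cancel, Matrix.SpecialLinearGroup.coe_one]

/-- The diagonal frame. -/
theorem frame (hΓ : IsClosedSurface Γ) {g : Γ} (hg1 : g ≠ 1) (h : SL(2 * m + n, ℂ)) :
    ∃ (lam : ℂ) (Z : SL(2 * m + n, ℂ)), lam ≠ 0 ∧ lam ≠ 1 ∧ lam ≠ lam⁻¹ ∧
      (h * RM m n g * h⁻¹ : SL(2 * m + n, ℂ)).1 = Z.1 * BM m n !![lam, 0; 0, lam⁻¹] 1 * (Z⁻¹).1 ∧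
      ((h * RM m n g * h⁻¹ : SL(2 * m + n, ℂ))⁻¹).1 =
        Z.1 * BM m n !![lam⁻¹, 0; 0, lam] 1 * (Z⁻¹).1 := by
  obtain ⟨ε, hε, hgap, hdiag⟩ := hΓ.trace_gap
  obtain ⟨p, lam, hlam, -, -, h00, h11, h01, h10⟩ := hdiag g hg1
  have hsinh : 0 < 2 * Real.sinh (ε / 2) := by
    have : 0 < Real.sinh (ε / 2) := Real.sinh_pos_iff.2 (by linarith)
    linarith
  have hlam0 : lam ≠ 0 := by
    rintro rfl
    rw [inv_zero, sub_zero, abs_zero] at hlam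
    linarith
  have hlam2 : lam ≠ lam⁻¹ := by
    intro h
    rw [← h, sub_self, abs_zero] at hlam
    linarith
  have hlam1 : lam ≠ 1 := by
    rintro rfl
    simp at hlam2
  have hlamC0 : (lam : ℂ) ≠ 0 := by exact_mod_cast hlam0
  have hDRM : (RM m n (p⁻¹ * g * p)).1 = BM m n !![(lam : ℂ), 0; 0, (lam : ℂ)⁻¹] 1 := by
    rw [RM_coe]
    congr 1
    ext i j
    fin_cases i <;> fin_cases j
    · change (((p⁻¹ * g * p : SL(2, ℝ)) 0 0 : ℝ) : ℂ) = _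
      rw [h00]; simp
    · change (((p⁻¹ * g * p : SL(2, ℝ)) 0 1 : ℝ) : ℂ) = _
      rw [h01]; simp
    · change (((p⁻¹ * g * p : SL(2, ℝ)) 1 0 : ℝ) : ℂ) = _
      rw [h10]; simp
    · change (((p⁻¹ * g * p : SL(2, ℝ)) 1 1 : ℝ) : ℂ) = _
      rw [h11]; simp
  have hDD' : BM m n !![(lam : ℂ), 0; 0, (lam : ℂ)⁻¹] 1 * BM m n !![(lam : ℂ)⁻¹, 0; 0, (lam : ℂ)] 1 = 1 := by
    rw [BM_mul, ← BM_one]
    congr 1
    · ext i j
      fin_cases i <;> fin_cases j <;> simp [hlamC0]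
    · ring
  have hD'D := mul_eq_one_comm.1 hDD'
  have hσg : h * RM m n g * h⁻¹ = (h * RM m n p) * RM m n (p⁻¹ * g * p) * (h * RM m n p)⁻¹ := by
    rw [map_mul, map_mul, map_inv]
    group
  refine ⟨lam, h * RM m n p, hlamC0, by exact_mod_cast hlam1, by exact_mod_cast hlam2, ?_, ?_⟩
  · rw [hσg, Matrix.SpecialLinearGroup.coe_mul, Matrix.SpecialLinearGroup.coe_mul, hDRM]
  · generalize h * RM m n p = Z at hσg
    generalize h * RM m n g * h⁻¹ = S at hσg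
    have hS : S.1 = Z.1 * BM m n !![(lam : ℂ), 0; 0, (lam : ℂ)⁻¹] 1 * (Z⁻¹).1 := by
      rw [hσg, Matrix.SpecialLinearGroup.coe_mul, Matrix.SpecialLinearGroup.coe_mul, hDRM]
    generalize BM m n !![(lam : ℂ), 0; 0, (lam : ℂ)⁻¹] 1 = D at hS hDD' hD'D
    generalize BM m n !![(lam : ℂ)⁻¹, 0; 0, (lam : ℂ)] 1 = D' at hDD' hD'D ⊢
    have e2 : (Z.1 * D' * (Z⁻¹).1) * S.1 = 1 := by
      rw [hS]
      calc Z.1 * D' * (Z⁻¹).1 * (Z.1 * D * (Z⁻¹).1)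
          = Z.1 * D' * ((Z⁻¹).1 * Z.1) * D * (Z⁻¹).1 := by simp only [mul_assoc]
        _ = Z.1 * (D' * D) * (Z⁻¹).1 := by rw [sl_coe_inv_mul, mul_one, mul_assoc (Z.1)]
        _ = 1 := by rw [hD'D, mul_one, sl_coe_mul_inv]
    calc (S⁻¹).1 = ((Z.1 * D' * (Z⁻¹).1) * S.1) * (S⁻¹).1 := by rw [e2, one_mul]
      _ = _ := by rw [mul_assoc, sl_coe_mul_inv, mul_one]

/-- **The example is not simple `k`-Anosov.** -/
theorem exRep_not_mem (hΓ : IsClosedSurface Γ) (hk : 1 ≤ k) (hkd : k < 2 * m + n) (hkm : k ≠ m)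
    (hkmn : k ≠ m + n) :
    (Quotient.mk (conjSetoid Γ (2 * m + n)) ⟨exRep Γ m n, exRep_cr hΓ m n⟩) ∉
      simpleAnosovDomain Γ (2 * m + n) k := by
  rintro ⟨σ, hσ, hσρ⟩
  obtain ⟨h, hh⟩ := exists_conjC hσρ.symm
  obtain ⟨P, N, C, a, hC, ha, hPc, hP, hPeq, hPfl, hNc, hN0, hNeq, hdom⟩ := hσ
  obtain ⟨g, c, l, hc, hgc⟩ := hΓ.exists_simple hΓ.exists_ne_one
  have hcb := mem_birmanSeries hc
  have hg1 : g ≠ 1 := by
    rintro rfl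
    rw [act_one] at hgc
    have := congrArg (fun c : UT => c.1 0) hgc
    simp only [flow_apply, zero_add] at this
    exact hc.1.ne (c.2.injective this)
  obtain ⟨lam, Z, hl0, hl1, hl2, hS, hS'⟩ := frame (m := m) (n := n) hΓ hg1 h
  have hσg : σ.1.1 g = h * RM m n g * h⁻¹ := by rw [hh]; rfl
  rw [← hσg] at hS hS'
  obtain ⟨hPP, hPk⟩ := hP c hcb
  have hcommP : P c * (σ.1.1 g).1 = (σ.1.1 g).1 * P c := by
    have := hPeq c hcb g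
    rwa [hgc, hPfl c hcb l] at this
  have hdomg := fun (v w : Fin (2 * m + n) → ℂ) (μ ν : ℂ) => eig_dom (v := v) (w := w) (μ := μ)
    (ν := ν) hC ha hN0 hNeq hdom hc hgc
  clear hdom hNeq hN0 hNc hPfl hPeq hP hPc hgc hc hcb hg1 hσg
  generalize P c = Pc at *
  generalize (σ.1.1 g) = S at *
  generalize hQ : (Z⁻¹).1 * Pc * Z.1 = Q
  have hZZ := sl_coe_mul_inv Z
  have hZZ' := sl_coe_inv_mul Z
  have hQQ : Q * Q = Q := by
    rw [← hQ]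
    calc (Z⁻¹).1 * Pc * Z.1 * ((Z⁻¹).1 * Pc * Z.1)
        = (Z⁻¹).1 * Pc * (Z.1 * (Z⁻¹).1) * Pc * Z.1 := by simp only [mul_assoc]
      _ = (Z⁻¹).1 * (Pc * Pc) * Z.1 := by rw [hZZ, mul_one, mul_assoc ((Z⁻¹).1)]
      _ = _ := by rw [hPP]
  have hQk : Q.rank = k := by rw [← hQ, rank_conj hZZ', hPk]
  have hQD : Q * BM m n !![lam, 0; 0, lam⁻¹] 1 = BM m n !![lam, 0; 0, lam⁻¹] 1 * Q := by
    have e : BM m n !![lam, 0; 0, lam⁻¹] 1 = (Z⁻¹).1 * S.1 * Z.1 := by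
      rw [hS]
      calc BM m n !![lam, 0; 0, lam⁻¹] 1 =
          ((Z⁻¹).1 * Z.1) * BM m n !![lam, 0; 0, lam⁻¹] 1 * ((Z⁻¹).1 * Z.1) := by
            rw [hZZ', one_mul, mul_one]
        _ = _ := by simp only [mul_assoc]
    rw [e, ← hQ]
    calc (Z⁻¹).1 * Pc * Z.1 * ((Z⁻¹).1 * S.1 * Z.1)
        = (Z⁻¹).1 * Pc * (Z.1 * (Z⁻¹).1) * S.1 * Z.1 := by simp only [mul_assoc]
      _ = (Z⁻¹).1 * (Pc * S.1) * Z.1 := by rw [hZZ, mul_one]; simp only [mul_assoc]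
      _ = (Z⁻¹).1 * S.1 * (Z.1 * (Z⁻¹).1) * Pc * Z.1 := by
          rw [hcommP, hZZ, mul_one]; simp only [mul_assoc]
      _ = _ := by simp only [mul_assoc]
  have hPZ : ∀ x : Fin (2 * m + n) → ℂ, Pc *ᵥ (Z.1 *ᵥ x) = Z.1 *ᵥ (Q *ᵥ x) := by
    intro x
    rw [Matrix.mulVec_mulVec, Matrix.mulVec_mulVec, ← hQ]
    congr 1
    calc Pc * Z.1 = (Z.1 * (Z⁻¹).1) * (Pc * Z.1) := by rw [hZZ, one_mul]
      _ = _ := by simp only [mul_assoc]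
  have hSZ : ∀ x : Fin (2 * m + n) → ℂ, (S⁻¹).1 *ᵥ (Z.1 *ᵥ x) =
      Z.1 *ᵥ (BM m n !![lam⁻¹, 0; 0, lam] 1 *ᵥ x) := by
    intro x
    rw [hS', Matrix.mulVec_mulVec, Matrix.mulVec_mulVec]
    congr 1
    rw [mul_assoc, hZZ', mul_one]
  have hinj : ∀ x : Fin (2 * m + n) → ℂ, x ≠ 0 → Z.1 *ᵥ x ≠ 0 := by
    intro x hx h3
    apply hx
    have : (Z⁻¹).1 *ᵥ (Z.1 *ᵥ x) = x := by
      rw [Matrix.mulVec_mulVec, hZZ', Matrix.one_mulVec]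
    rw [← this, h3, Matrix.mulVec_zero]
  -- `Q` commutes with the inverse
  have hDD' : BM m n !![lam, 0; 0, lam⁻¹] 1 * BM m n !![lam⁻¹, 0; 0, lam] 1 = 1 := by
    rw [BM_mul, ← BM_one]
    congr 1
    · ext i j
      fin_cases i <;> fin_cases j <;> simp [hl0]
    · ring
  have hD'D := mul_eq_one_comm.1 hDD'
  refine no_rank hl0 hl1 hl2 hQQ hQD ?_ (by omega) (by omega) (by omega) (by omega)
  generalize BM m n !![lam, 0; 0, lam⁻¹] 1 = D at *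
  generalize BM m n !![lam⁻¹, 0; 0, lam] 1 = D' at *
  have hQD' : Q * D' = D' * Q := by
    calc Q * D' = (D' * D) * Q * D' := by rw [hD'D, one_mul]
      _ = D' * (D * Q) * D' := by simp only [mul_assoc]
      _ = D' * (Q * D) * D' := by rw [hQD]
      _ = D' * Q * (D * D') := by simp only [mul_assoc]
      _ = _ := by rw [hDD', mul_one]
  have hQD'' : (1 - Q) * D' = D' * (1 - Q) := by
    rw [sub_mul, mul_sub, one_mul, mul_one, hQD']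
  intro E E' μ ν hμ hE hE' h1 h2
  obtain ⟨y, hy⟩ := exists_mulVec_ne h1
  obtain ⟨y', hy'⟩ := exists_mulVec_ne h2
  have k1 : Q *ᵥ ((Q * E) *ᵥ y) = (Q * E) *ᵥ y := by
    rw [Matrix.mulVec_mulVec, ← mul_assoc, hQQ]
  have k2 : Q *ᵥ (((1 - Q) * E') *ᵥ y') = 0 := by
    rw [Matrix.mulVec_mulVec, ← mul_assoc, mul_sub, mul_one, hQQ, sub_self, zero_mul,
      Matrix.zero_mulVec]
  have k3 : D' *ᵥ ((Q * E) *ᵥ y) = μ • ((Q * E) *ᵥ y) := by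
    rw [Matrix.mulVec_mulVec, ← mul_assoc, ← hQD', mul_assoc, hE, Matrix.mul_smul,
      Matrix.smul_mulVec]
  have k4 : D' *ᵥ (((1 - Q) * E') *ᵥ y') = ν • (((1 - Q) * E') *ᵥ y') := by
    rw [Matrix.mulVec_mulVec, ← mul_assoc, ← hQD'', mul_assoc, hE', Matrix.mul_smul,
      Matrix.smul_mulVec]
  apply hdomg (Z.1 *ᵥ ((Q * E) *ᵥ y)) (Z.1 *ᵥ (((1 - Q) * E') *ᵥ y')) μ ν _ _ (hinj _ hy)
    (hinj _ hy') _ _ hμ
  · rw [hPZ, k1]
  · rw [hPZ, k2, Matrix.mulVec_zero]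
  · rw [hSZ, k3, Matrix.mulVec_smul]
  · rw [hSZ, k4, Matrix.mulVec_smul]

end Pool.Agent.Q138.SA
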