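import Pool.Agent.Y473.SA.OutFin

/-!
# Sets of automorphisms with bounded traces are finite modulo inner automorphisms
-/

set_option autoImplicit false
set_option linter.unusedSimpArgs false
set_option linter.unusedVariables false

open scoped MatrixGroups UpperHalfPlane Matrix
open UpperHalfPlane

namespace Pool.Agent.Q138.SA

open Pool.Agent.Y473.SA

variable {Γ : Subgroup SL(2, ℝ)}

theorem cosh_dist_smul_I (X : SL(2, ℝ)) :
    Real.cosh (dist I (X • I)) = ((X 0 0) ^ 2 + (X 0 1) ^ 2 + (X 1 0) ^ 2 + (X 1 1) ^ 2) / 2 := by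
  have hdet := sl_det X
  have h1 := smul_im X I
  have h2 := smul_re X I
  rw [I_re, I_im] at h1 h2
  simp only [mul_zero, zero_add, mul_one, one_pow] at h1 h2
  have hpos : 0 < (X 1 1) ^ 2 + (X 1 0) ^ 2 := by
    rcases eq_or_ne (X 1 1) 0 with h | h
    · rcases eq_or_ne (X 1 0) 0 with h' | h'
      · rw [h, h'] at hdet; simp at hdet
      · positivity
    · positivity
  rw [UpperHalfPlane.cosh_dist, Complex.dist_eq, Complex.sq_norm, Complex.normSq_apply]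
  simp only [Complex.sub_re, Complex.sub_im, coe_re, coe_im]
  rw [I_re, I_im, h1, h2]
  field_simp
  have e : X 0 0 * X 1 1 = 1 + X 0 1 * X 1 0 := by linarith
  nlinarith [e]

/-- Elimination. -/
theorem two_eq {lam x y M K₁ K₂ η : ℝ} (hη : 0 < η) (h : η ≤ |lam - lam⁻¹|) (h1 : |lam| ≤ M)
    (h2 : |lam⁻¹| ≤ M) (hK₁ : |x + y| ≤ K₁) (hK₂ : |lam * x + lam⁻¹ * y| ≤ K₂) :
    |x| ≤ (K₂ + M * K₁) / η ∧ |y| ≤ (K₂ + M * K₁) / η := by
  have hM : 0 ≤ M := (abs_nonneg _).trans h1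
  have e1 : |lam⁻¹ * (x + y)| ≤ M * K₁ := by
    rw [abs_mul]; exact mul_le_mul h2 hK₁ (abs_nonneg _) hM
  have e2 : |lam * (x + y)| ≤ M * K₁ := by
    rw [abs_mul]; exact mul_le_mul h1 hK₁ (abs_nonneg _) hM
  constructor
  · rw [le_div_iff₀ hη]
    have h3 : |(lam - lam⁻¹) * x| ≤ K₂ + M * K₁ := by
      have : (lam - lam⁻¹) * x = (lam * x + lam⁻¹ * y) - lam⁻¹ * (x + y) := by ring
      rw [this]
      exact (abs_sub _ _).trans (add_le_add hK₂ e1)
    rw [abs_mul] at h3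
    nlinarith [abs_nonneg x]
  · rw [le_div_iff₀ hη]
    have h3 : |(lam - lam⁻¹) * y| ≤ K₂ + M * K₁ := by
      have : (lam - lam⁻¹) * y = lam * (x + y) - (lam * x + lam⁻¹ * y) := by ring
      rw [this]
      exact (abs_sub _ _).trans (by linarith)
    rw [abs_mul] at h3
    nlinarith [abs_nonneg y]

/-- The trace of a commutator with a diagonal matrix. -/
theorem tr_comm {A B : SL(2, ℝ)} {lam : ℝ} (hlam : lam ≠ 0) (h00 : A 0 0 = lam)
    (h11 : A 1 1 = lam⁻¹) (h01 : A 0 1 = 0) (h10 : A 1 0 = 0) :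
    tr (A * B * A⁻¹ * B⁻¹) = 2 - (lam - lam⁻¹) ^ 2 * (B 0 1 * B 1 0) := by
  obtain ⟨a1, a2, a3, a4⟩ := sl_inv_apply A
  obtain ⟨b1, b2, b3, b4⟩ := sl_inv_apply B
  have hdet := sl_det B
  rw [tr_eq]
  simp only [sl_mul_apply, a1, a2, a3, a4, b1, b2, b3, b4, h00, h11, h01, h10]
  have e : lam * lam⁻¹ = 1 := mul_inv_cancel₀ hlam
  have e2 : B 0 0 * B 1 1 = 1 + B 0 1 * B 1 0 := by linarith
  linear_combination (2 * (lam * lam⁻¹)) * e2 + (2 * (B 0 1 * B 1 0)) * e - 2 * (B 0 1 * B 1 0) * e +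
    2 * e

/-- A pair `A`, `B` with `A` diagonal can be conjugated by a diagonal matrix so that all elements
`S` with bounded traces have bounded entries. -/
theorem conj_bounded {M η δ : ℝ} (hη : 0 < η) (hδ : 0 < δ) : ∃ C : ℝ, ∀ (lam : ℝ) (A B : SL(2, ℝ)),
    A 0 0 = lam → A 1 1 = lam⁻¹ → A 0 1 = 0 → A 1 0 = 0 → η ≤ |lam - lam⁻¹| → |lam| ≤ M →
    |lam⁻¹| ≤ M → |tr B| ≤ M → |tr (A * B)| ≤ M → 2 + δ ≤ |tr (A * B * A⁻¹ * B⁻¹)| →
    ∃ D : SL(2, ℝ), ∀ S : SL(2, ℝ), |tr S| ≤ M → |tr (A * S)| ≤ M → |tr (S * B)| ≤ M →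
      |tr (A * S * B)| ≤ M → ∀ i j, |(D⁻¹ * S * D) i j| ≤ C := by
  set C₀ := (M + M * M) / η with hC₀
  set K₁ := M + 2 * (C₀ * C₀) with hK₁
  set K₂ := M + 2 * (M * (C₀ * C₀)) with hK₂
  set C₁ := (K₂ + M * K₁) / η with hC₁
  set δ' := δ / (4 * M ^ 2) with hδ'
  refine ⟨C₀ + C₁ / Real.sqrt δ', ?_⟩
  intro lam A B h00 h11 h01 h10 hlam1 hlam2 hlam3 hB hAB hcomm
  have hM0 : 0 ≤ M := (abs_nonneg _).trans hlam2
  have hlam : lam ≠ 0 := by
    rintro rfl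
    simp at hlam1
    linarith
  have hM : 0 < M := lt_of_lt_of_le (abs_pos.2 hlam) hlam2
  have hδ'0 : 0 < δ' := by positivity
  -- diagonal entries
  have hdiag : ∀ S : SL(2, ℝ), |tr S| ≤ M → |tr (A * S)| ≤ M → |S 0 0| ≤ C₀ ∧ |S 1 1| ≤ C₀ := by
    intro S hS hAS
    rw [tr_eq] at hS hAS
    simp only [sl_mul_apply, h00, h11, h01, h10] at hAS
    exact two_eq hη hlam1 hlam2 hlam3 hS (by simpa using hAS)
  obtain ⟨hb1, hb2⟩ := hdiag B hB hAB
  have hC₀0 : 0 ≤ C₀ := (abs_nonneg _).trans hb1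
  -- off diagonal entries of `B`
  have hprod : δ' ≤ |B 0 1 * B 1 0| := by
    rw [tr_comm hlam h00 h11 h01 h10] at hcomm
    have h3 : δ ≤ |(lam - lam⁻¹) ^ 2 * (B 0 1 * B 1 0)| := by
      have := abs_sub (2 : ℝ) ((lam - lam⁻¹) ^ 2 * (B 0 1 * B 1 0))
      rw [abs_of_pos (by norm_num : (0 : ℝ) < 2)] at this
      linarith
    rw [abs_mul, abs_of_nonneg (sq_nonneg _)] at h3
    have h4 : (lam - lam⁻¹) ^ 2 ≤ 4 * M ^ 2 := by
      have h5 : |lam - lam⁻¹| ≤ 2 * M := (abs_sub _ _).trans (by linarith)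
      have h6 := pow_le_pow_left₀ (abs_nonneg _) h5 2
      rw [sq_abs] at h6
      linarith
    rw [hδ', div_le_iff₀ (by positivity)]
    nlinarith [abs_nonneg (B 0 1 * B 1 0)]
  have hb01 : B 0 1 ≠ 0 := by
    intro h
    rw [h, zero_mul, abs_zero] at hprod
    linarith
  have hb10 : B 1 0 ≠ 0 := by
    intro h
    rw [h, mul_zero, abs_zero] at hprod
    linarith
  -- the diagonal matrix
  set ν := Real.sqrt (|B 0 1| / |B 1 0|) with hν
  have hν0 : 0 < ν := Real.sqrt_pos.2 (by positivity)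
  have hν2 : ν ^ 2 = |B 0 1| / |B 1 0| := Real.sq_sqrt (by positivity)
  set μ := Real.sqrt ν with hμ
  have hμ0 : 0 < μ := Real.sqrt_pos.2 hν0
  have hμ2 : μ ^ 2 = ν := Real.sq_sqrt hν0.le
  let D : SL(2, ℝ) := ⟨!![μ, 0; 0, μ⁻¹], by
    rw [Matrix.det_fin_two_of, mul_inv_cancel₀ hμ0.ne']; ring⟩
  have d00 : D 0 0 = μ := rfl
  have d01 : D 0 1 = 0 := rfl
  have d10 : D 1 0 = 0 := rfl
  have d11 : D 1 1 = μ⁻¹ := rfl
  refine ⟨D, fun S hS hAS hSB hASB => ?_⟩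
  obtain ⟨i1, i2, i3, i4⟩ := sl_inv_apply D
  obtain ⟨hs1, hs2⟩ := hdiag S hS hAS
  have hoff : |S 0 1 * B 1 0| ≤ C₁ ∧ |S 1 0 * B 0 1| ≤ C₁ := by
    rw [tr_eq] at hSB hASB
    simp only [sl_mul_apply, h00, h11, h01, h10] at hSB hASB
    have e1 : |S 0 0 * B 0 0| ≤ C₀ * C₀ := by
      rw [abs_mul]; exact mul_le_mul hs1 hb1 (abs_nonneg _) hC₀0
    have e2 : |S 1 1 * B 1 1| ≤ C₀ * C₀ := by
      rw [abs_mul]; exact mul_le_mul hs2 hb2 (abs_nonneg _) hC₀0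
    have e3 : |lam * (S 0 0 * B 0 0)| ≤ M * (C₀ * C₀) := by
      rw [abs_mul]; exact mul_le_mul hlam2 e1 (abs_nonneg _) hM0
    have e4 : |lam⁻¹ * (S 1 1 * B 1 1)| ≤ M * (C₀ * C₀) := by
      rw [abs_mul]; exact mul_le_mul hlam3 e2 (abs_nonneg _) hM0
    apply two_eq hη hlam1 hlam2 hlam3
    · rw [abs_le] at hSB e1 e2 ⊢
      constructor <;> linarith [hSB.1, hSB.2, e1.1, e1.2, e2.1, e2.2]
    · have e5 : lam * (S 0 1 * B 1 0) + lam⁻¹ * (S 1 0 * B 0 1) =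
          ((lam * S 0 0 + 0 * S 1 0) * B 0 0 + (lam * S 0 1 + 0 * S 1 1) * B 1 0 +
            ((0 * S 0 0 + lam⁻¹ * S 1 0) * B 0 1 + (0 * S 0 1 + lam⁻¹ * S 1 1) * B 1 1)) -
          lam * (S 0 0 * B 0 0) - lam⁻¹ * (S 1 1 * B 1 1) := by ring
      rw [e5]
      rw [abs_le] at hASB e3 e4 ⊢
      constructor <;> linarith [hASB.1, hASB.2, e3.1, e3.2, e4.1, e4.2]
  have hC₁0 : 0 ≤ C₁ := (abs_nonneg _).trans hoff.1
  have hsq : 0 < Real.sqrt δ' := Real.sqrt_pos.2 hδ'0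
  have hC2 : 0 ≤ C₁ / Real.sqrt δ' := by positivity
  have hsqrt : Real.sqrt δ' ≤ Real.sqrt (|B 0 1| * |B 1 0|) := by
    rw [← abs_mul]; exact Real.sqrt_le_sqrt hprod
  have hx : 0 < |B 0 1| := abs_pos.2 hb01
  have hy : 0 < |B 1 0| := abs_pos.2 hb10
  have hνy : ν * |B 1 0| = Real.sqrt (|B 0 1| * |B 1 0|) := by
    rw [eq_comm, Real.sqrt_eq_iff_mul_self_eq (by positivity) (by positivity)]
    have e9 : ν * |B 1 0| * (ν * |B 1 0|) = |B 0 1| * |B 1 0| := by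
      calc ν * |B 1 0| * (ν * |B 1 0|) = ν ^ 2 * (|B 1 0| * |B 1 0|) := by ring
        _ = |B 0 1| * |B 1 0| := by rw [hν2]; field_simp
    first | exact e9 | exact e9.symm
  have hνx : ν⁻¹ * |B 0 1| = Real.sqrt (|B 0 1| * |B 1 0|) := by
    rw [← hνy]
    rw [inv_mul_eq_div, div_eq_iff hν0.ne']
    have : |B 0 1| = ν ^ 2 * |B 1 0| := by rw [hν2]; field_simp
    rw [this]; ring
  intro i j
  fin_cases i <;> fin_cases j
  · have e : (D⁻¹ * S * D) 0 0 = S 0 0 := by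
      simp only [sl_mul_apply, i1, i2, i3, i4, d00, d01, d10, d11]
      field_simp
      ring
    change |(D⁻¹ * S * D) 0 0| ≤ _
    rw [e]
    linarith
  · have e : (D⁻¹ * S * D) 0 1 = S 0 1 * ν⁻¹ := by
      simp only [sl_mul_apply, i1, i2, i3, i4, d00, d01, d10, d11]
      rw [← hμ2]
      field_simp
      ring
    change |(D⁻¹ * S * D) 0 1| ≤ _
    rw [e, abs_mul, abs_of_pos (inv_pos.2 hν0)]
    have h5 : |S 0 1| * ν⁻¹ ≤ C₁ / Real.sqrt δ' := by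
      rw [le_div_iff₀ hsq]
      have h6 := hoff.1
      rw [abs_mul] at h6
      calc |S 0 1| * ν⁻¹ * Real.sqrt δ' ≤ |S 0 1| * ν⁻¹ * (ν * |B 1 0|) := by
            rw [hνy]; exact mul_le_mul_of_nonneg_left hsqrt (by positivity)
        _ = |S 0 1| * |B 1 0| := by field_simp
        _ ≤ C₁ := h6
    linarith
  · have e : (D⁻¹ * S * D) 1 0 = S 1 0 * ν := by
      simp only [sl_mul_apply, i1, i2, i3, i4, d00, d01, d10, d11]
      rw [← hμ2]
      ring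
    change |(D⁻¹ * S * D) 1 0| ≤ _
    rw [e, abs_mul, abs_of_pos hν0]
    have h5 : |S 1 0| * ν ≤ C₁ / Real.sqrt δ' := by
      rw [le_div_iff₀ hsq]
      have h6 := hoff.2
      rw [abs_mul] at h6
      calc |S 1 0| * ν * Real.sqrt δ' ≤ |S 1 0| * ν * (ν⁻¹ * |B 0 1|) := by
            rw [hνx]; exact mul_le_mul_of_nonneg_left hsqrt (by positivity)
        _ = |S 1 0| * |B 0 1| := by field_simp
        _ ≤ C₁ := h6
    linarith
  · have e : (D⁻¹ * S * D) 1 1 = S 1 1 := by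
      simp only [sl_mul_apply, i1, i2, i3, i4, d00, d01, d10, d11]
      field_simp
      ring
    change |(D⁻¹ * S * D) 1 1| ≤ _
    rw [e]
    linarith

/-- A set of automorphisms with bounded traces is finite modulo inner automorphisms. -/
theorem outFinite (hΓ : IsClosedSurface Γ) (A : Set (MulAut Γ))
    (hA : ∀ g : Γ, ∃ M : ℝ, ∀ φ ∈ A, |tr (φ g)| ≤ M) :
    {q : Out Γ | ∃ φ ∈ A, (φ : Out Γ) = q}.Finite := by
  classical
  obtain ⟨ε, hε, hgap, hdiag⟩ := hΓ.trace_gap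
  obtain ⟨a, b, hab⟩ := hΓ.exists_not_comm
  obtain ⟨F, hF, hFgen⟩ := hΓ.exists_gen
  obtain ⟨r, hr0, hr⟩ := hΓ.exists_radius
  choose Mf hMf using hA
  -- a uniform bound
  set W : Set Γ := {a, b, a * b} ∪ (F ∪ ((fun s => a * s) '' F ∪ ((fun s => s * b) '' F ∪
    (fun s => a * s * b) '' F))) with hW
  have hWfin : W.Finite := by
    rw [hW]
    exact (Set.toFinite _).union (hF.union ((hF.image _).union ((hF.image _).union (hF.image _))))
  obtain ⟨M, hM⟩ := (hWfin.image Mf).bddAbove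
  have hMW : ∀ g ∈ W, ∀ φ ∈ A, |tr (φ g)| ≤ M := fun g hg φ hφ =>
    (hMf g φ hφ).trans (hM ⟨g, hg, rfl⟩)
  have hη : 0 < 2 * Real.sinh (ε / 2) := by
    have : 0 < Real.sinh (ε / 2) := Real.sinh_pos_iff.2 (by linarith)
    linarith
  have hδ : 0 < 2 * Real.cosh (ε / 2) - 2 := by
    have : 1 < Real.cosh (ε / 2) := Real.one_lt_cosh.2 (by linarith)
    linarith
  obtain ⟨C, hC⟩ := conj_bounded (M := M) hη hδ
  -- the conjugating elements
  set R := Real.arcosh (max 1 (2 * C ^ 2)) with hR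
  have hRcosh : Real.cosh R = max 1 (2 * C ^ 2) := Real.cosh_arcosh (le_max_left _ _)
  have hR0 : 0 ≤ R := Real.arcosh_nonneg (le_max_left _ _)
  set S : Set Γ := {g : Γ | ∃ z, dist I z ≤ r ∧ dist z (g • z) ≤ R} with hS
  have hSfin : S.Finite := hΓ.finite_disp r R
  have ha1 : a ≠ 1 := by
    rintro rfl
    apply hab
    simp
  have key : ∀ φ ∈ A, ∃ h : Γ, ∀ s ∈ F, h * φ s * h⁻¹ ∈ S := by
    intro φ hφ
    have hφa : φ a ≠ 1 := fun h => ha1 ((map_eq_one_iff φ φ.injective).1 h)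
    obtain ⟨p, lam, h1, h2, h3, h00, h11, h01, h10⟩ := hdiag (φ a) hφa
    have hconj : ∀ g : Γ, tr (p⁻¹ * (g : SL(2, ℝ)) * p) = tr g := fun g => tr_conj p g
    have hmul : ∀ x y : Γ, (p⁻¹ * (x : SL(2, ℝ)) * p) * (p⁻¹ * (y : SL(2, ℝ)) * p) =
        p⁻¹ * ((x * y : Γ) : SL(2, ℝ)) * p := by
      intro x y
      rw [Subgroup.coe_mul]
      group
    have hinv : ∀ x : Γ, (p⁻¹ * (x : SL(2, ℝ)) * p)⁻¹ = p⁻¹ * ((x⁻¹ : Γ) : SL(2, ℝ)) * p := by
      intro x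
      rw [Subgroup.coe_inv]
      group
    have haW : a ∈ W := by simp [hW]
    have hbW : b ∈ W := by simp [hW]
    have habW : a * b ∈ W := by simp [hW]
    obtain ⟨D, hD⟩ := hC lam (p⁻¹ * (φ a : SL(2, ℝ)) * p) (p⁻¹ * (φ b : SL(2, ℝ)) * p) h00 h11 h01 h10
      h1 (h2.trans (hMW a haW φ hφ)) (h3.trans (hMW a haW φ hφ))
      (by rw [hconj]; exact hMW b hbW φ hφ)
      (by rw [hmul, hconj, ← map_mul]; exact hMW _ habW φ hφ)
      (by
        rw [hinv, hinv, hmul, hmul, hmul, hconj]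
        have h4 : φ a * φ b * (φ a)⁻¹ * (φ b)⁻¹ ≠ 1 := by
          rw [← map_inv, ← map_inv, ← map_mul, ← map_mul, ← map_mul]
          exact fun h => hab ((map_eq_one_iff φ φ.injective).1 h)
        have := hgap _ h4
        linarith)
    obtain ⟨h, hh⟩ := hr ((p * D) • I)
    refine ⟨h, fun s hs => ⟨h • (p * D) • I, hh, ?_⟩⟩
    have e1 : dist (h • (p * D) • I) ((h * φ s * h⁻¹) • h • (p * D) • I) =
        dist I ((D⁻¹ * (p⁻¹ * (φ s : SL(2, ℝ)) * p) * D) • I) := by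
      rw [mul_smul (h * φ s) h⁻¹, inv_smul_smul, mul_smul h (φ s), dist_smul]
      have e2 : (φ s) • (p * D) • I = (p * D) • (D⁻¹ * (p⁻¹ * (φ s : SL(2, ℝ)) * p) * D) • I := by
        rw [← mul_smul (p * D)]
        change (φ s : SL(2, ℝ)) • (p * D) • I = _
        rw [← mul_smul]
        congr 1
        group
      rw [e2, dist_smul]
    rw [e1]
    have hsW : s ∈ W := by rw [hW]; exact Or.inr (Or.inl hs)
    have hasW : a * s ∈ W := by rw [hW]; exact Or.inr (Or.inr (Or.inl ⟨s, hs, rfl⟩))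
    have hsbW : s * b ∈ W := by rw [hW]; exact Or.inr (Or.inr (Or.inr (Or.inl ⟨s, hs, rfl⟩)))
    have hasbW : a * s * b ∈ W := by rw [hW]; exact Or.inr (Or.inr (Or.inr (Or.inr ⟨s, hs, rfl⟩)))
    have hX := hD (p⁻¹ * (φ s : SL(2, ℝ)) * p) (by rw [hconj]; exact hMW s hsW φ hφ)
      (by rw [hmul, hconj, ← map_mul]; exact hMW _ hasW φ hφ)
      (by rw [hmul, hconj, ← map_mul]; exact hMW _ hsbW φ hφ)
      (by rw [hmul, hmul, hconj, ← map_mul, ← map_mul]; exact hMW _ hasbW φ hφ)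
    set X := D⁻¹ * (p⁻¹ * (φ s : SL(2, ℝ)) * p) * D with hXdef
    have hc : Real.cosh (dist I (X • I)) ≤ Real.cosh R := by
      rw [cosh_dist_smul_I, hRcosh]
      refine le_trans ?_ (le_max_right _ _)
      have q : ∀ i j, (X i j) ^ 2 ≤ C ^ 2 := fun i j => by
        have := hX i j
        rw [← sq_abs]
        exact pow_le_pow_left₀ (abs_nonneg _) this 2
      linarith [q 0 0, q 0 1, q 1 0, q 1 1]
    rw [Real.cosh_le_cosh, abs_of_nonneg dist_nonneg, abs_of_nonneg hR0] at hc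
    exact hc
  -- finiteness
  set T : Set (MulAut Γ) := {ψ | ∀ s ∈ F, ψ s ∈ S} with hT
  have hTfin : T.Finite := by
    have : Finite F := hF
    have : Finite S := hSfin
    let f : T → (F → S) := fun ψ s => ⟨ψ.1 s.1, ψ.2 s.1 s.2⟩
    have hf : Function.Injective f := by
      intro ψ ψ' h
      apply Subtype.ext
      apply MulEquiv.toMonoidHom_injective
      apply MonoidHom.eq_of_eqOn_dense hFgen
      intro s hs
      exact congrArg Subtype.val (congrFun h ⟨s, hs⟩)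
    exact Finite.of_injective f hf
  refine (hTfin.image (fun ψ : MulAut Γ => (ψ : Out Γ))).subset ?_
  rintro q ⟨φ, hφ, rfl⟩
  obtain ⟨h, hh⟩ := key φ hφ
  refine ⟨MulAut.conj h * φ, fun s hs => ?_, ?_⟩
  · rw [MulAut.mul_apply, MulAut.conj_apply]
    exact hh s hs
  · change ((MulAut.conj h * φ : MulAut Γ) : Out Γ) = (φ : Out Γ)
    rw [QuotientGroup.eq]
    refine ⟨φ⁻¹ h⁻¹, ?_⟩
    ext x
    simp

/-- A set of automorphisms with bounded traces on the simple elements is finite modulo inner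
automorphisms. -/
theorem outFinite_simple (hΓ : IsClosedSurface Γ) (A : Set (MulAut Γ))
    (hA : ∀ g : Γ, IsSimpleElt g → ∃ M : ℝ, ∀ φ ∈ A, |tr (φ g)| ≤ M) :
    {q : Out Γ | ∃ φ ∈ A, (φ : Out Γ) = q}.Finite := by
  apply outFinite hΓ A
  by_contra hcon
  push Not at hcon
  set B : Set Γ := {g | ¬ ∃ M : ℝ, ∀ φ ∈ A, |tr (φ g)| ≤ M} with hB
  have hne : B.Nonempty := by
    obtain ⟨g, hg⟩ := hcon
    refine ⟨g, ?_⟩
    rintro ⟨M, hM⟩
    obtain ⟨φ, hφ, h⟩ := hg M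
    exact absurd (hM φ hφ) (not_le.2 h)
  obtain ⟨g, hg, hs⟩ := hΓ.descent B (by
    intro g hg h hcon
    apply hg
    obtain ⟨M, hM⟩ := hcon
    refine ⟨M, fun φ hφ => ?_⟩
    have := hM φ hφ
    rw [map_mul, map_mul, map_inv, Subgroup.coe_mul, Subgroup.coe_mul, Subgroup.coe_inv] at this
    have e := tr_conj ((φ h : SL(2, ℝ)))⁻¹ (φ g)
    rw [inv_inv] at e
    rwa [e] at this) (by
    intro h
    apply h
    refine ⟨2, fun φ _ => ?_⟩
    rw [map_one, Subgroup.coe_one, tr_eq]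
    simp [Matrix.SpecialLinearGroup.coe_one]
    norm_num) hne (by
    intro b d hb hd hbd
    rw [hB, Set.mem_ofPred_eq, not_not] at hb hd hbd
    rw [hB, Set.mem_ofPred_eq, not_not]
    obtain ⟨M₁, h1⟩ := hb
    obtain ⟨M₂, h2⟩ := hd
    obtain ⟨M₃, h3⟩ := hbd
    refine ⟨M₁ * M₂ + M₃, fun φ hφ => ?_⟩
    have e := tr_identity (φ b : SL(2, ℝ)) (φ d)
    rw [map_mul, Subgroup.coe_mul, e]
    have e3 := h3 φ hφ
    rw [map_mul, map_inv, Subgroup.coe_mul, Subgroup.coe_inv] at e3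
    refine (abs_sub _ _).trans (add_le_add ?_ e3)
    rw [abs_mul]
    exact mul_le_mul (h1 φ hφ) (h2 φ hφ) (abs_nonneg _) ((abs_nonneg _).trans (h1 φ hφ)))
  exact hg (hA g hs)

end Pool.Agent.Q138.SA
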