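import Pool.Agent.Q138.SA.Geo
import Pool.Agent.Q138.SA.Growth
import Pool.Agent.Q138.SA.Cone

/-!
# Stability: uniform domination for the representations near a simple Anosov representation
-/

set_option autoImplicit false

open scoped MatrixGroups UpperHalfPlane Matrix Topology
open UpperHalfPlane

namespace Pool.Agent.Q138.SA

open Pool.Agent.Y473.SA

variable {Γ : Subgroup SL(2, ℝ)} {d k : ℕ}

/-- The size of the unstable component. -/
noncomputable def ua (P : UT → Matrix (Fin d) (Fin d) ℂ) (N : UT → Seminorm ℂ (Fin d → ℂ)) (c : UT)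
    (v : Fin d → ℂ) : ℝ := N c (P c *ᵥ v)

/-- The size of the stable component. -/
noncomputable def ub (P : UT → Matrix (Fin d) (Fin d) ℂ) (N : UT → Seminorm ℂ (Fin d → ℂ)) (c : UT)
    (v : Fin d → ℂ) : ℝ := N c (v - P c *ᵥ v)

theorem norm_entry_mulVec (E : Matrix (Fin d) (Fin d) ℂ) {ε : ℝ} (h : ∀ i j, ‖E i j‖ ≤ ε)
    (v : Fin d → ℂ) : ‖E *ᵥ v‖ ≤ d * ε * ‖v‖ := by
  rcases Nat.eq_zero_or_pos d with hd | hd
  · subst hd
    have : E *ᵥ v = 0 := Subsingleton.elim _ _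
    rw [this, norm_zero]
    simp
  have hε : 0 ≤ ε := (norm_nonneg _).trans (h ⟨0, hd⟩ ⟨0, hd⟩)
  rw [pi_norm_le_iff_of_nonneg (by positivity)]
  intro i
  have e0 : (E *ᵥ v) i = ∑ j, E i j * v j := rfl
  rw [e0]
  calc ‖∑ j, E i j * v j‖ ≤ ∑ j, ‖E i j * v j‖ := norm_sum_le _ _
    _ ≤ ∑ _j : Fin d, ε * ‖v‖ := by
        apply Finset.sum_le_sum
        intro j _
        rw [norm_mul]
        exact mul_le_mul (h i j) (norm_le_pi_norm v j) (norm_nonneg _) hε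
    _ = d * ε * ‖v‖ := by simp [mul_assoc]

/-- Uniform comparison of the norms on a compact set. -/
theorem exists_bounds {Y : Set UT} (hY : IsCompact Y) {P : UT → Matrix (Fin d) (Fin d) ℂ}
    {N : UT → Seminorm ℂ (Fin d → ℂ)} (hP : ContinuousOn P Y)
    (hN : ContinuousOn (fun p : UT × (Fin d → ℂ) => N p.1 p.2) (Y ×ˢ Set.univ))
    (hN0 : ∀ c ∈ Y, ∀ v, N c v = 0 → v = 0) :
    ∃ m₀ M₀ M₁ : ℝ, 0 < m₀ ∧ 0 < M₀ ∧ 0 < M₁ ∧ ∀ c ∈ Y, ∀ v,
      m₀ * ‖v‖ ≤ N c v ∧ N c v ≤ M₀ * ‖v‖ ∧ ‖P c *ᵥ v‖ ≤ M₁ * ‖v‖ := by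
  set K : Set (UT × (Fin d → ℂ)) := Y ×ˢ Metric.sphere 0 1 with hK
  have hKc : IsCompact K := hY.prod (isCompact_sphere _ _)
  have hsub : K ⊆ Y ×ˢ Set.univ := Set.prod_mono le_rfl (Set.subset_univ _)
  have hNK : ContinuousOn (fun p : UT × (Fin d → ℂ) => N p.1 p.2) K := hN.mono hsub
  have hPK : ContinuousOn (fun p : UT × (Fin d → ℂ) => ‖P p.1 *ᵥ p.2‖) K := by
    have h1 : ContinuousOn (fun p : UT × (Fin d → ℂ) => P p.1) K :=
      hP.comp continuousOn_fst (fun p hp => hp.1)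
    have h2 : ContinuousOn (fun p : UT × (Fin d → ℂ) => p.2) K := continuousOn_snd
    have h3 : ContinuousOn (fun p : UT × (Fin d → ℂ) => P p.1 *ᵥ p.2) K := by
      rw [continuousOn_pi]
      intro i
      have e0 : (fun y : UT × (Fin d → ℂ) => (P y.1 *ᵥ y.2) i) = fun y => ∑ j, P y.1 i j * y.2 j := rfl
      rw [e0]
      apply continuousOn_finsetSum
      intro j _
      apply ContinuousOn.mul
      · exact (continuousOn_pi.1 ((continuousOn_pi.1 h1) i) j)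
      · exact (continuousOn_pi.1 h2) j
    exact h3.norm
  -- reduction to unit vectors
  have hscale : ∀ v : Fin d → ℂ, v ≠ 0 → ∃ u : Fin d → ℂ, ‖u‖ = 1 ∧ v = ((‖v‖ : ℝ) : ℂ) • u := by
    intro v hv
    have hv' : ‖v‖ ≠ 0 := norm_ne_zero_iff.2 hv
    refine ⟨((‖v‖ : ℝ) : ℂ)⁻¹ • v, ?_, ?_⟩
    · rw [norm_smul, norm_inv, Complex.norm_real, norm_norm, inv_mul_cancel₀ hv']
    · rw [smul_smul, mul_inv_cancel₀ (by exact_mod_cast hv'), one_smul]
  rcases K.eq_empty_or_nonempty with hemp | hne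
  · refine ⟨1, 1, 1, one_pos, one_pos, one_pos, fun c hc v => ?_⟩
    have hv : v = 0 := by
      by_contra hv
      obtain ⟨u, hu, -⟩ := hscale v hv
      have : (c, u) ∈ K := ⟨hc, by rwa [mem_sphere_zero_iff_norm]⟩
      rw [hemp] at this
      exact this.elim
    subst hv
    simp
  · obtain ⟨p₀, hp₀, hmin⟩ := hKc.exists_isMinOn hne hNK
    obtain ⟨p₁, hp₁, hmax⟩ := hKc.exists_isMaxOn hne hNK
    obtain ⟨p₂, hp₂, hmax2⟩ := hKc.exists_isMaxOn hne hPK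
    have hpos : 0 < N p₀.1 p₀.2 := by
      refine lt_of_le_of_ne (apply_nonneg _ _) fun h => ?_
      have h1 := hN0 p₀.1 hp₀.1 p₀.2 h.symm
      have h2 : ‖p₀.2‖ = 1 := by simpa using hp₀.2
      rw [h1, norm_zero] at h2
      exact zero_ne_one h2
    refine ⟨N p₀.1 p₀.2, N p₁.1 p₁.2, ‖P p₂.1 *ᵥ p₂.2‖ + 1, hpos,
      lt_of_lt_of_le hpos (hmax hp₀), by positivity, fun c hc v => ?_⟩
    rcases eq_or_ne v 0 with rfl | hv
    · simp
    obtain ⟨u, hu, huv⟩ := hscale v hv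
    have hcu : (c, u) ∈ K := ⟨hc, by rwa [mem_sphere_zero_iff_norm]⟩
    have e1 : N c v = ‖v‖ * N c u := by
      have h3 := map_smul_eq_mul (N c) ((‖v‖ : ℝ) : ℂ) u
      rw [← huv, Complex.norm_real, norm_norm] at h3
      exact h3
    have e2 : ‖P c *ᵥ v‖ = ‖v‖ * ‖P c *ᵥ u‖ := by
      have h3 := Matrix.mulVec_smul (P c) ((‖v‖ : ℝ) : ℂ) u
      rw [← huv] at h3
      rw [h3, norm_smul, Complex.norm_real, norm_norm]
    have hv0 : 0 ≤ ‖v‖ := norm_nonneg v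
    have f1 := isMinOn_iff.1 hmin (c, u) hcu
    have f2 := isMaxOn_iff.1 hmax (c, u) hcu
    have f3 := isMaxOn_iff.1 hmax2 (c, u) hcu
    dsimp only at f1 f2 f3
    rw [e1, e2]
    refine ⟨?_, ?_, ?_⟩
    · rw [mul_comm]; exact mul_le_mul_of_nonneg_left f1 hv0
    · rw [mul_comm]; exact mul_le_mul_of_nonneg_right f2 hv0
    · rw [mul_comm]; exact mul_le_mul_of_nonneg_right (by linarith) hv0

/-- Evaluations of representations are continuous. -/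
theorem continuous_eval (h : Γ) : Continuous (fun σ : Rep Γ d => (σ.1 h).1) :=
  continuous_subtype_val.comp ((continuous_apply h).comp continuous_subtype_val)

/-- A representation as a homomorphism. -/
def repHom (σ : Rep Γ d) : Γ →* SL(d, ℂ) := MonoidHom.mk' σ.1 σ.2

theorem repHom_apply (σ : Rep Γ d) (g : Γ) : repHom σ g = σ.1 g := rfl

theorem rep_one (σ : Rep Γ d) : σ.1 1 = 1 := map_one (repHom σ)
theorem rep_inv (σ : Rep Γ d) (g : Γ) : σ.1 g⁻¹ = (σ.1 g)⁻¹ := map_inv (repHom σ) g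
theorem rep_pow (σ : Rep Γ d) (g : Γ) (n : ℕ) : σ.1 (g ^ n) = (σ.1 g) ^ n := map_pow (repHom σ) g n

theorem sl_inv_mulVec (A : SL(d, ℂ)) (v : Fin d → ℂ) : (A⁻¹).1 *ᵥ (A.1 *ᵥ v) = v := by
  rw [Matrix.mulVec_mulVec, ← Matrix.SpecialLinearGroup.coe_mul, inv_mul_cancel,
    Matrix.SpecialLinearGroup.coe_one, Matrix.one_mulVec]

/-- **Stability.** -/
theorem stability (hΓ : IsClosedSurface Γ) {ρ : Rep Γ d} (h : IsSimpleAnosov k ρ) :
    ∃ (P : UT → Matrix (Fin d) (Fin d) ℂ) (N : UT → Seminorm ℂ (Fin d → ℂ)) (r T m : ℝ)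
      (V : Set (Rep Γ d)), IsOpen V ∧ ρ ∈ V ∧ 0 < T ∧ 0 < m ∧ (∀ c : UT, ∃ g : Γ, dist I ((act g c).1 0) ≤ r) ∧
      (∀ c ∈ birmanSeries Γ, P c * P c = P c ∧ (P c).rank = k) ∧
      (∀ c ∈ birmanSeries Γ, ∀ v, N c v = 0 → v = 0) ∧
      (∀ c ∈ birmanSeries Γ, dist I (c.1 0) ≤ r → ∃ C : ℝ, 0 ≤ C ∧
        ∀ v, ua P N c v ≤ C * ‖v‖ ∧ ub P N c v ≤ C * ‖v‖) ∧
      ∀ σ ∈ V, ∀ c ∈ birmanSeries Γ, dist I (c.1 0) ≤ r → ∀ t, T ≤ t → t ≤ 2 * T → ∀ g : Γ,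
        act g (flow t c) ∈ birmanSeries Γ → dist I ((act g (flow t c)).1 0) ≤ r →
        flow t c ∈ birmanSeries Γ →
          Step m (ua P N c) (ub P N c) (ua P N (act g (flow t c))) (ub P N (act g (flow t c)))
            (fun v => (σ.1 g).1 *ᵥ v) := by
  obtain ⟨P, N, C, a, hC, ha, hPc, hP, hPeq, hPfl, hNc, hN0, hNeq, hdom⟩ := h
  obtain ⟨r, hr0, hr⟩ := hΓ.exists_radius
  set Y : Set UT := {c : UT | c ∈ birmanSeries Γ ∧ dist I (c.1 0) ≤ r} with hYdef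
  have hY : IsCompact Y := isCompact_Y r
  have hYsub : Y ⊆ birmanSeries Γ := fun c hc => hc.1
  obtain ⟨m₀, M₀, M₁, hm₀, hM₀, hM₁, hb⟩ := exists_bounds hY (hPc.mono hYsub)
    (hNc.mono (Set.prod_mono hYsub le_rfl)) (fun c hc => hN0 c hc.1)
  -- the time
  obtain ⟨T, hT, hTa⟩ : ∃ T : ℝ, 0 < T ∧ C * Real.exp (-a * T) ≤ 1 / 8 := by
    refine ⟨max 1 (Real.log (8 * C) / a), by positivity, ?_⟩
    set T := max 1 (Real.log (8 * C) / a) with hT
    have h1 : Real.log (8 * C) ≤ a * T := by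
      have := le_max_right 1 (Real.log (8 * C) / a)
      rw [← hT, div_le_iff₀ ha] at this
      linarith
    have h2 : 8 * C ≤ Real.exp (a * T) := by
      rwa [← Real.log_le_iff_le_exp (by positivity)]
    have h3 : Real.exp (-a * T) = (Real.exp (a * T))⁻¹ := by
      rw [← Real.exp_neg]; congr 1; ring
    rw [h3, ← div_eq_mul_inv, div_le_iff₀ (Real.exp_pos _)]
    linarith
  -- the return elements
  set B : Set Γ := {h : Γ | ∃ c : UT, ∃ t : ℝ, 0 ≤ t ∧ t ≤ 2 * T ∧ dist I (c.1 0) ≤ r ∧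
      dist I ((act h (flow t c)).1 0) ≤ r} with hB
  have hBfin : B.Finite := finite_return hΓ r (2 * T)
  -- a bound for the inverses
  obtain ⟨R, hR0, hR⟩ : ∃ R : ℝ, 0 < R ∧ ∀ g ∈ B, ∀ v : Fin d → ℂ, ‖v‖ ≤ R * ‖(ρ.1 g).1 *ᵥ v‖ := by
    have h1 : ∀ g : Γ, ∃ R : ℝ, ∀ v : Fin d → ℂ, ‖v‖ ≤ R * ‖(ρ.1 g).1 *ᵥ v‖ := by
      intro g
      set E : Matrix (Fin d) (Fin d) ℂ := ((ρ.1 g)⁻¹).1 with hE
      refine ⟨d * (∑ i, ∑ j, ‖E i j‖), fun v => ?_⟩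
      have h2 : ∀ i j, ‖E i j‖ ≤ ∑ i, ∑ j, ‖E i j‖ := fun i j =>
        (Finset.single_le_sum (f := fun j => ‖E i j‖) (fun _ _ => norm_nonneg _)
          (Finset.mem_univ j)).trans
        (Finset.single_le_sum (f := fun i => ∑ j, ‖E i j‖)
          (fun _ _ => Finset.sum_nonneg fun _ _ => norm_nonneg _) (Finset.mem_univ i))
      have h3 := norm_entry_mulVec E h2 ((ρ.1 g).1 *ᵥ v)
      rwa [hE, sl_inv_mulVec] at h3
    choose Rf hRf using h1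
    obtain ⟨R, hR⟩ := (hBfin.image Rf).bddAbove
    refine ⟨max R 1, by positivity, fun g hg v => (hRf g v).trans ?_⟩
    exact mul_le_mul_of_nonneg_right ((hR ⟨g, hg, rfl⟩).trans (le_max_left _ _)) (norm_nonneg _)
  set m := m₀ / (R * M₀) with hm
  have hm0 : 0 < m := by positivity
  set ε := m * m₀ / (16 * M₀ * (1 + M₁) * (d + 1)) with hε
  have hε0 : 0 < ε := by positivity
  -- the neighbourhood
  set V : Set (Rep Γ d) := ⋂ g ∈ B, {σ | ∀ i j, ‖(σ.1 g).1 i j - (ρ.1 g).1 i j‖ < ε} with hV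
  refine ⟨P, N, r, T, m, V, ?_, ?_, hT, hm0, ?_, hP, hN0, ?_, ?_⟩
  · rw [hV]
    apply hBfin.isOpen_biInter
    intro g _
    have h1 : {σ : Rep Γ d | ∀ i j, ‖(σ.1 g).1 i j - (ρ.1 g).1 i j‖ < ε} =
        ⋂ (i : Fin d) (j : Fin d), {σ | ‖(σ.1 g).1 i j - (ρ.1 g).1 i j‖ < ε} := by
      ext σ; simp
    rw [h1]
    refine isOpen_iInter_of_finite fun i => isOpen_iInter_of_finite fun j => ?_
    apply isOpen_lt _ continuous_const
    exact ((((continuous_eval g).matrix_elem i j)).sub continuous_const).norm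
  · rw [hV]
    simp [hε0]
  · intro c
    obtain ⟨g, hg⟩ := hr (c.1 0)
    exact ⟨g, hg⟩
  · intro c hc hcr
    refine ⟨M₀ * (1 + M₁), by positivity, fun v => ?_⟩
    obtain ⟨-, h1, h2⟩ := hb c ⟨hc, hcr⟩ v
    obtain ⟨-, h3, -⟩ := hb c ⟨hc, hcr⟩ (P c *ᵥ v)
    obtain ⟨-, h4, -⟩ := hb c ⟨hc, hcr⟩ (v - P c *ᵥ v)
    have h5 : ‖v - P c *ᵥ v‖ ≤ (1 + M₁) * ‖v‖ := (norm_sub_le _ _).trans (by linarith)
    have hv : 0 ≤ ‖v‖ := norm_nonneg v
    constructor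
    · refine h3.trans ?_
      calc M₀ * ‖P c *ᵥ v‖ ≤ M₀ * (M₁ * ‖v‖) := mul_le_mul_of_nonneg_left h2 hM₀.le
        _ ≤ M₀ * (1 + M₁) * ‖v‖ := by nlinarith
    · refine h4.trans ?_
      calc M₀ * ‖v - P c *ᵥ v‖ ≤ M₀ * ((1 + M₁) * ‖v‖) := mul_le_mul_of_nonneg_left h5 hM₀.le
        _ = M₀ * (1 + M₁) * ‖v‖ := by ring
  · intro σ hσ c hc hcr t hTt ht2 g hgc hgr hfc
    have hgB : g ∈ B := ⟨c, t, by linarith, ht2, hcr, hgr⟩
    have hσg : ∀ i j, ‖(σ.1 g).1 i j - (ρ.1 g).1 i j‖ < ε := by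
      have := Set.mem_iInter₂.1 hσ g hgB
      exact this
    set c' := act g (flow t c) with hc'
    have hcY : c ∈ Y := ⟨hc, hcr⟩
    have hcY' : c' ∈ Y := ⟨hgc, hgr⟩
    -- intertwining
    have hPt : P (flow t c) = P c := hPfl c hc t
    have hint : P c' * (ρ.1 g).1 = (ρ.1 g).1 * P c := by
      rw [hc', hPeq _ hfc, hPt]
    have hNt : ∀ v, N c' ((ρ.1 g).1 *ᵥ v) = N (flow t c) v := fun v => hNeq _ hfc g v
    have hua : ∀ v, ua P N c' ((ρ.1 g).1 *ᵥ v) = N (flow t c) (P c *ᵥ v) := by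
      intro v
      rw [ua, Matrix.mulVec_mulVec, hint, ← Matrix.mulVec_mulVec, hNt]
    have hub : ∀ v, ub P N c' ((ρ.1 g).1 *ᵥ v) = N (flow t c) (v - P c *ᵥ v) := by
      intro v
      rw [ub, Matrix.mulVec_mulVec, hint, ← Matrix.mulVec_mulVec, ← Matrix.mulVec_sub, hNt]
    have hPP : ∀ v, P c *ᵥ (P c *ᵥ v) = P c *ᵥ v := fun v => by
      rw [Matrix.mulVec_mulVec, (hP c hc).1]
    -- norm of `v` in terms of the components
    have hv2 : ∀ v, ‖v‖ ≤ 2 / m₀ * max (ua P N c v) (ub P N c v) := by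
      intro v
      have h1 := (hb c hcY (P c *ᵥ v)).1
      have h2 := (hb c hcY (v - P c *ᵥ v)).1
      have h3 : ‖v‖ ≤ ‖P c *ᵥ v‖ + ‖v - P c *ᵥ v‖ := by
        have : v = P c *ᵥ v + (v - P c *ᵥ v) := by abel
        nth_rewrite 1 [this]
        exact norm_add_le _ _
      have h4 : m₀ * ‖v‖ ≤ 2 * max (ua P N c v) (ub P N c v) := by
        have h5 := le_max_left (ua P N c v) (ub P N c v)
        have h6 := le_max_right (ua P N c v) (ub P N c v)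
        have h7 : m₀ * ‖v‖ ≤ m₀ * ‖P c *ᵥ v‖ + m₀ * ‖v - P c *ᵥ v‖ := by
          rw [← mul_add]; exact mul_le_mul_of_nonneg_left h3 hm₀.le
        have h8 : m₀ * ‖P c *ᵥ v‖ ≤ ua P N c v := h1
        have h9 : m₀ * ‖v - P c *ᵥ v‖ ≤ ub P N c v := h2
        linarith
      rw [div_mul_eq_mul_div, le_div_iff₀ hm₀]
      linarith
    -- the perturbation
    have hE : ∀ v, ‖(σ.1 g).1 *ᵥ v - (ρ.1 g).1 *ᵥ v‖ ≤ d * ε * ‖v‖ := by
      intro v
      rw [← Matrix.sub_mulVec]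
      exact norm_entry_mulVec _ (fun i j => (hσg i j).le) v
    have hfin : ∀ v, M₀ * (1 + M₁) * ‖(σ.1 g).1 *ᵥ v - (ρ.1 g).1 *ᵥ v‖ ≤
        m / 8 * max (ua P N c v) (ub P N c v) := by
      intro v
      have hmax : 0 ≤ max (ua P N c v) (ub P N c v) := (apply_nonneg (N c) _).trans (le_max_left _ _)
      calc M₀ * (1 + M₁) * ‖(σ.1 g).1 *ᵥ v - (ρ.1 g).1 *ᵥ v‖
          ≤ M₀ * (1 + M₁) * (d * ε * (2 / m₀ * max (ua P N c v) (ub P N c v))) := by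
            apply mul_le_mul_of_nonneg_left _ (by positivity)
            exact (hE v).trans (mul_le_mul_of_nonneg_left (hv2 v) (by positivity))
        _ = (m / 8 * (d / (d + 1))) * max (ua P N c v) (ub P N c v) := by
            rw [hε]; field_simp; ring
        _ ≤ m / 8 * max (ua P N c v) (ub P N c v) := by
            apply mul_le_mul_of_nonneg_right _ hmax
            have : (d : ℝ) / (d + 1) ≤ 1 := by
              rw [div_le_one (by positivity)]; linarith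
            nlinarith
    refine ⟨fun v => apply_nonneg _ _, fun v => apply_nonneg _ _, fun v => (ρ.1 g).1 *ᵥ v, ?_, ?_, ?_, ?_⟩
    · intro v w
      rw [hua, hub]
      have h1 := hdom c hc (P c *ᵥ v) (w - P c *ᵥ w) (hPP v)
        (by rw [Matrix.mulVec_sub, hPP, sub_self]) t (by linarith)
      refine h1.trans ?_
      apply mul_le_mul_of_nonneg_right _ (mul_nonneg (apply_nonneg _ _) (apply_nonneg _ _))
      refine le_trans ?_ hTa
      apply mul_le_mul_of_nonneg_left _ hC.le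
      apply Real.exp_le_exp.2
      nlinarith
    · intro v
      rw [hua, ← hNt]
      have h1 := (hb c' hcY' ((ρ.1 g).1 *ᵥ (P c *ᵥ v))).1
      have h2 := hR g hgB (P c *ᵥ v)
      have h3 := (hb c hcY (P c *ᵥ v)).2.1
      refine le_trans ?_ h1
      have h4 : ua P N c v ≤ M₀ * (R * ‖(ρ.1 g).1 *ᵥ P c *ᵥ v‖) :=
        h3.trans (mul_le_mul_of_nonneg_left h2 hM₀.le)
      calc m * ua P N c v ≤ m * (M₀ * (R * ‖(ρ.1 g).1 *ᵥ P c *ᵥ v‖)) :=
            mul_le_mul_of_nonneg_left h4 hm0.le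
        _ = m₀ * ‖(ρ.1 g).1 *ᵥ P c *ᵥ v‖ := by rw [hm]; field_simp
    · intro v
      refine le_trans ?_ (hfin v)
      set e := (σ.1 g).1 *ᵥ v - (ρ.1 g).1 *ᵥ v with he
      have h1 : |ua P N c' ((σ.1 g).1 *ᵥ v) - ua P N c' ((ρ.1 g).1 *ᵥ v)| ≤ N c' (P c' *ᵥ e) := by
        rw [ua, ua, he, Matrix.mulVec_sub]
        exact abs_sub_map_le_sub (N c') _ _
      have h2 := (hb c' hcY' (P c' *ᵥ e)).2.1
      have h3 := (hb c' hcY' e).2.2
      refine h1.trans (h2.trans ?_)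
      have hev : 0 ≤ ‖e‖ := norm_nonneg e
      calc M₀ * ‖P c' *ᵥ e‖ ≤ M₀ * (M₁ * ‖e‖) := mul_le_mul_of_nonneg_left h3 hM₀.le
        _ ≤ M₀ * (1 + M₁) * ‖e‖ := by nlinarith
    · intro v
      refine le_trans ?_ (hfin v)
      set e := (σ.1 g).1 *ᵥ v - (ρ.1 g).1 *ᵥ v with he
      have h1 : |ub P N c' ((σ.1 g).1 *ᵥ v) - ub P N c' ((ρ.1 g).1 *ᵥ v)| ≤ N c' (e - P c' *ᵥ e) := by
        have e1 : e - P c' *ᵥ e = ((σ.1 g).1 *ᵥ v - P c' *ᵥ ((σ.1 g).1 *ᵥ v)) -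
            ((ρ.1 g).1 *ᵥ v - P c' *ᵥ ((ρ.1 g).1 *ᵥ v)) := by
          rw [he, Matrix.mulVec_sub]; abel
        rw [ub, ub, e1]
        exact abs_sub_map_le_sub (N c') _ _
      have h2 := (hb c' hcY' (e - P c' *ᵥ e)).2.1
      have h3 := (hb c' hcY' e).2.2
      refine h1.trans (h2.trans ?_)
      have h5 : ‖e - P c' *ᵥ e‖ ≤ (1 + M₁) * ‖e‖ := (norm_sub_le _ _).trans (by linarith)
      calc M₀ * ‖e - P c' *ᵥ e‖ ≤ M₀ * ((1 + M₁) * ‖e‖) := mul_le_mul_of_nonneg_left h5 hM₀.le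
        _ = M₀ * (1 + M₁) * ‖e‖ := by ring

end Pool.Agent.Q138.SA
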